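import Pool.Agent.V11210.FHT.Twist

/-!
The winding numbers of the twist.
-/

set_option autoImplicit false

open Complex Set Filter Topology Function

noncomputable section

namespace Pool.Agent.V11210.FHT

/-- The point of the unit circle. -/
def uu (t : ℝ) : ℂ := exp ((t * (2 * Real.pi) : ℝ) * I)

theorem norm_uu (t : ℝ) : ‖uu t‖ = 1 := norm_exp_ofReal_mul_I _

theorem continuous_uu : Continuous uu := by
  unfold uu
  fun_prop

theorem uu_zero : uu 0 = 1 := by simp [uu]

theorem uu_one : uu 1 = 1 := by simp [uu]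

theorem bet_one : bet 1 = 2 * Real.pi := by
  rw [bet, clamp_of_one_le (by norm_num), mul_one]

theorem sF_six (t : ℝ) : sF t 6 = 5 + uu t := by
  have h : ‖(6 : ℂ) - 5‖ = 1 := by norm_num
  rw [sF, tw, h, bet_one, uu]
  norm_num

theorem sF_four (t : ℝ) : sF t 4 = 5 - uu t := by
  have h : ‖(4 : ℂ) - 5‖ = 1 := by norm_num
  rw [sF, tw, h, bet_one, uu]
  norm_num
  ring

theorem uu_re_le (t : ℝ) : |(uu t).re| ≤ 1 := (abs_re_le_norm _).trans (norm_uu t).le

theorem re_add_pos (t : ℝ) : 0 < (5 + uu t).re := by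
  have := (abs_le.1 (uu_re_le t)).1
  have h : (5 + uu t).re = 5 + (uu t).re := by simp
  linarith

theorem re_sub_pos (t : ℝ) : 0 < (5 - uu t).re := by
  have := (abs_le.1 (uu_re_le t)).2
  have h : (5 - uu t).re = 5 - (uu t).re := by simp
  linarith

theorem ne_of_re_pos {z : ℂ} (h : 0 < z.re) : z ≠ 0 := by
  rintro rfl
  simp at h

/-- The difference of the logarithms. -/
def DD (t : ℝ) : ℂ := Complex.log (5 + uu t) - Complex.log (5 - uu t)

theorem continuous_DD : Continuous DD := by
  have h := continuous_uu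
  refine Continuous.sub ?_ ?_
  · exact continuous_iff_continuousAt.2 fun t =>
      (by fun_prop : Continuous fun t => 5 + uu t).continuousAt.clog (Or.inl (re_add_pos t))
  · exact continuous_iff_continuousAt.2 fun t =>
      (by fun_prop : Continuous fun t => 5 - uu t).continuousAt.clog (Or.inl (re_sub_pos t))

theorem sL_sub (t : ℝ) (j : ℤ) : sL t (qt j) - sL t pt = j * (2 * Real.pi * I) + DD t := by
  rw [sL, sL, exp_qt, exp_pt, sF_six, sF_four, DD]
  have h1 : Complex.log (5 + uu t) = (Real.log 6 : ℝ) + Complex.log ((5 + uu t) / 6) := by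
    rw [← log_ofReal_mul (by norm_num) (div_ne_zero (ne_of_re_pos (re_add_pos t)) (by norm_num))]
    congr 1
    push_cast
    field_simp
  have h2 : Complex.log (5 - uu t) = (Real.log 4 : ℝ) + Complex.log ((5 - uu t) / 4) := by
    rw [← log_ofReal_mul (by norm_num) (div_ne_zero (ne_of_re_pos (re_sub_pos t)) (by norm_num))]
    congr 1
    push_cast
    field_simp
  rw [h1, h2, qt, pt]
  ring

theorem norm_sq_sub (t : ℝ) : ‖5 + uu t‖ ^ 2 - ‖5 - uu t‖ ^ 2 = 20 * (uu t).re := by
  rw [← normSq_eq_norm_sq, ← normSq_eq_norm_sq, normSq_apply, normSq_apply]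
  simp
  ring

theorem DD_re (t : ℝ) : (DD t).re = Real.log ‖5 + uu t‖ - Real.log ‖5 - uu t‖ := by
  rw [DD, sub_re, log_re, log_re]

theorem DD_im (t : ℝ) : (DD t).im = arg (5 + uu t) - arg (5 - uu t) := by
  rw [DD, sub_im, log_im, log_im]

theorem DD_re_pos {t : ℝ} (h : 0 < (uu t).re) : 0 < (DD t).re := by
  rw [DD_re, sub_pos]
  refine Real.log_lt_log (norm_pos_iff.2 (ne_of_re_pos (re_sub_pos t))) ?_
  have := norm_sq_sub t
  nlinarith [norm_nonneg (5 + uu t), norm_nonneg (5 - uu t)]

theorem DD_re_neg {t : ℝ} (h : (uu t).re < 0) : (DD t).re < 0 := by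
  rw [DD_re, sub_neg]
  refine Real.log_lt_log (norm_pos_iff.2 (ne_of_re_pos (re_add_pos t))) ?_
  have := norm_sq_sub t
  nlinarith [norm_nonneg (5 + uu t), norm_nonneg (5 - uu t)]

theorem arg_pos_of {z : ℂ} (h : 0 < z.im) : 0 < arg z := by
  refine lt_of_le_of_ne (arg_nonneg_iff.2 h.le) fun he => ?_
  exact h.ne' (arg_eq_zero_iff.1 he.symm).2

theorem DD_im_pos {t : ℝ} (h : 0 < (uu t).im) : 0 < (DD t).im := by
  rw [DD_im]
  have h1 : 0 < arg (5 + uu t) := arg_pos_of (by simpa using h)
  have h2 : arg (5 - uu t) < 0 := arg_neg_iff.2 (by simpa using h)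
  linarith

theorem DD_im_neg {t : ℝ} (h : (uu t).im < 0) : (DD t).im < 0 := by
  rw [DD_im]
  have h1 : 0 < arg (5 - uu t) := arg_pos_of (by simpa using h)
  have h2 : arg (5 + uu t) < 0 := arg_neg_iff.2 (by simpa using h)
  linarith

theorem DD_im_abs (t : ℝ) : |(DD t).im| < Real.pi := by
  rw [DD_im]
  have h1 := abs_lt.1 (abs_arg_lt_pi_div_two_iff.2 (Or.inl (re_add_pos t)))
  have h2 := abs_lt.1 (abs_arg_lt_pi_div_two_iff.2 (Or.inl (re_sub_pos t)))
  rw [abs_lt]
  constructor <;> linarith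

theorem ratio_re_pos (t : ℝ) : 0 < (DD t / uu t).re := by
  have hn : normSq (uu t) = 1 := by
    rw [normSq_eq_norm_sq, norm_uu]
    norm_num
  rw [div_re, hn, div_one, div_one]
  have hu : (uu t).re * (uu t).re + (uu t).im * (uu t).im = 1 := by
    rw [← normSq_apply, hn]
  have h1 : 0 ≤ (DD t).re * (uu t).re := by
    rcases lt_trichotomy (uu t).re 0 with h | h | h
    · exact (mul_pos_of_neg_of_neg (DD_re_neg h) h).le
    · rw [h, mul_zero]
    · exact (mul_pos (DD_re_pos h) h).le
  rcases lt_trichotomy (uu t).im 0 with h | h | h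
  · have := mul_pos_of_neg_of_neg (DD_im_neg h) h
    linarith
  · rw [h, mul_zero, add_zero]
    rw [h, mul_zero, add_zero] at hu
    rcases lt_trichotomy (uu t).re 0 with h' | h' | h'
    · exact mul_pos_of_neg_of_neg (DD_re_neg h') h'
    · rw [h'] at hu
      norm_num at hu
    · exact mul_pos (DD_re_pos h') h'
  · have := mul_pos (DD_im_pos h) h
    linarith

theorem DD_zero_one : DD 1 = DD 0 := by
  rw [DD, DD, uu_one, uu_zero]

theorem uu_ne (t : ℝ) : uu t ≠ 0 := exp_ne_zero _

theorem DD_zero : DD 0 = qt 0 - pt := by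
  have := sL_sub 0 0
  rw [sL_zero] at this
  simpa using this.symm

theorem W_zero : W (sL 1) pt (qt 0) = 1 := by
  have h := W_path goodFam_sL sL_zero (pt_ne_qt 0)
    (fun t => (t * (2 * Real.pi) : ℝ) * I + Complex.log (DD t / uu t) - Complex.log (DD 0)) ?_ ?_ ?_ 1
  · rw [h, uu_one, div_one, DD_zero_one, add_sub_cancel_right, div_eq_one_iff_eq two_pi_I_ne_zero]
    push_cast
    ring
  · refine Continuous.sub (Continuous.add (by fun_prop) ?_) continuous_const
    exact continuous_iff_continuousAt.2 fun t =>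
      (continuous_DD.div continuous_uu uu_ne).continuousAt.clog (Or.inl (ratio_re_pos t))
  · simp [uu_zero]
  · intro t
    have h0 : DD 0 ≠ 0 := by
      have := ratio_re_pos 0
      rw [uu_zero, div_one] at this
      exact ne_of_re_pos this
    rw [sL_sub, exp_sub, exp_add, exp_log (ne_of_re_pos (ratio_re_pos t)), exp_log h0, ← DD_zero]
    have h1 : exp ((t * (2 * Real.pi) : ℝ) * I) = uu t := rfl
    have h2 := uu_ne t
    rw [h1]
    field_simp
    simp

theorem W_ne {j : ℤ} (hj : j ≠ 0) : W (sL 1) pt (qt j) = 0 := by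
  let E : ℝ → ℂ := fun t => j * (2 * Real.pi * I) + DD t
  have hE : ∀ t, (E t).im ≠ 0 := by
    intro t h
    have h1 : (E t).im = j * (2 * Real.pi) + (DD t).im := by
      simp [E]
    rw [h1] at h
    have h2 := abs_lt.1 (DD_im_abs t)
    have hpi := Real.pi_pos
    rcases lt_or_gt_of_ne hj with h3 | h3
    · have h4 : (j : ℝ) ≤ -1 := by exact_mod_cast Int.le_sub_one_of_lt h3
      nlinarith
    · have h4 : (1 : ℝ) ≤ j := by exact_mod_cast h3
      nlinarith
  have hE0 : ∀ t, E t ≠ 0 := by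
    intro t h
    exact hE t (by rw [h, zero_im])
  have hE1 : qt j - pt = E 0 := by
    have := sL_sub 0 j
    rw [sL_zero] at this
    exact this
  have h := W_path goodFam_sL sL_zero (pt_ne_qt j)
    (fun t => Complex.log (E t) - Complex.log (E 0)) ?_ ?_ ?_ 1
  · rw [h]
    have : E 1 = E 0 := by simp only [E, DD_zero_one]
    rw [this, sub_self, zero_div]
  · refine Continuous.sub ?_ continuous_const
    have h1 := continuous_DD
    exact continuous_iff_continuousAt.2 fun t =>
      (by fun_prop : Continuous E).continuousAt.clog (Or.inr (hE t))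
  · simp
  · intro t
    rw [sL_sub, exp_sub, exp_log (hE0 t), exp_log (hE0 0), hE1, div_mul_cancel₀ _ (hE0 0)]

end Pool.Agent.V11210.FHT
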