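import Mathlib

/-!
# Stabilisers of maps from surfaces to a bouquet: definitions

* `FixHomeo B`: the group of the homeomorphisms of `X` which fix `B` pointwise.
* `isotopicToId B`: the homeomorphisms which are isotopic to the identity through
  homeomorphisms which fix `B` pointwise.
* `MCG B = FixHomeo B ⧸ isotopicToId B`: for a compact surface `X` with boundary `B` this is the
  mapping class group of the question.
* `MapClass X Y V`: homotopy classes, relative to `V`, of continuous maps from `X` to `Y`.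
* `actHom`: the action of `MCG B` on `MapClass X Y V` (where `V ⊆ B`) by `[ρ] • [f] = [f ∘ ρ⁻¹]`.
* `stabiliser`: the stabiliser of `[f]`, that is, the group `MCG(f)`.
* `Bouquet r`: the bouquet of `r` circles.
* `FiniteHomologicalType`: finite homological type of a group.
-/

set_option autoImplicit false

open Function

noncomputable section

namespace Pool.Agent.V11210.FHT

section MappingClasses

variable {X : Type} [TopologicalSpace X]

/-- The group of the homeomorphisms of `X` which fix `B` pointwise. -/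
def FixHomeo (B : Set X) : Subgroup (X ≃ₜ X) where
  carrier := {φ | ∀ x ∈ B, φ x = x}
  one_mem' := fun _ _ => rfl
  mul_mem' := by
    intro φ ψ hφ hψ x hx
    change φ (ψ x) = x
    rw [hψ x hx, hφ x hx]
  inv_mem' := by
    intro φ hφ x hx
    change φ.symm x = x
    rw [Homeomorph.symm_apply_eq, hφ x hx]

theorem inv_fix {B : Set X} (φ : FixHomeo B) {x : X} (hx : x ∈ B) :
    (φ : X ≃ₜ X).symm x = x := by
  rw [Homeomorph.symm_apply_eq, φ.2 x hx]

/-- `φ` is isotopic to the identity through homeomorphisms which fix `B` pointwise. -/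
def IsotopicToId (B : Set X) (φ : FixHomeo B) : Prop :=
  ∃ H : unitInterval → FixHomeo B,
    Continuous (fun p : unitInterval × X => (H p.1 : X ≃ₜ X) p.2) ∧ H 0 = 1 ∧ H 1 = φ

variable [CompactSpace X] [T2Space X]

theorem continuous_isotopy_inv {B : Set X} (H : unitInterval → FixHomeo B)
    (hH : Continuous (fun p : unitInterval × X => (H p.1 : X ≃ₜ X) p.2)) :
    Continuous (fun p : unitInterval × X => (H p.1 : X ≃ₜ X).symm p.2) := by
  let e : unitInterval × X ≃ unitInterval × X :=
    { toFun := fun p => (p.1, (H p.1 : X ≃ₜ X) p.2)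
      invFun := fun p => (p.1, (H p.1 : X ≃ₜ X).symm p.2)
      left_inv := fun p => by simp
      right_inv := fun p => by simp }
  have he : Continuous e := continuous_fst.prodMk hH
  have := (he.homeoOfEquivCompactToT2 (f := e)).symm.continuous
  exact continuous_snd.comp this

/-- The homeomorphisms which are isotopic to the identity through homeomorphisms which fix `B`
pointwise. -/
def isotopicToId (B : Set X) : Subgroup (FixHomeo B) where
  carrier := {φ | IsotopicToId B φ}
  one_mem' := ⟨fun _ => 1, continuous_snd, rfl, rfl⟩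
  mul_mem' := by
    rintro φ ψ ⟨H, h1, h2, h3⟩ ⟨K, k1, k2, k3⟩
    refine ⟨fun t => H t * K t, ?_, by simp [h2, k2], by simp [h3, k3]⟩
    exact h1.comp (continuous_fst.prodMk k1)
  inv_mem' := by
    rintro φ ⟨H, h1, h2, h3⟩
    exact ⟨fun t => (H t)⁻¹, continuous_isotopy_inv H h1, by simp [h2], by simp [h3]⟩

instance isotopicToId_normal (B : Set X) : (isotopicToId B).Normal := by
  refine ⟨?_⟩
  rintro φ ⟨H, h1, h2, h3⟩ ψ
  refine ⟨fun t => ψ * H t * ψ⁻¹, ?_, by simp [h2], by simp [h3]⟩
  exact (ψ : X ≃ₜ X).continuous.comp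
    (h1.comp (continuous_fst.prodMk ((ψ : X ≃ₜ X).symm.continuous.comp continuous_snd)))

/-- The mapping class group of `X` relative to `B`. -/
abbrev MCG (B : Set X) : Type := FixHomeo B ⧸ isotopicToId B

end MappingClasses

section Maps

variable (X Y : Type) [TopologicalSpace X] [TopologicalSpace Y]

/-- Homotopy relative to `V`. -/
def relSetoid (V : Set X) : Setoid C(X, Y) :=
  ⟨fun f g => f.HomotopicRel g V, ContinuousMap.HomotopicRel.equivalence⟩

/-- Homotopy classes, relative to `V`, of continuous maps from `X` to `Y`. -/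
def MapClass (V : Set X) : Type := Quotient (relSetoid X Y V)

variable {X Y}

/-- The homotopy class of `f` relative to `V`. -/
def mapClass (V : Set X) (f : C(X, Y)) : MapClass X Y V := Quotient.mk (relSetoid X Y V) f

theorem mapClass_eq_iff {V : Set X} {f g : C(X, Y)} :
    mapClass V f = mapClass V g ↔ f.HomotopicRel g V := Quotient.eq (r := relSetoid X Y V)

/-- A homeomorphism as a continuous map. -/
def homC (φ : X ≃ₜ X) : C(X, X) := ⟨φ, φ.continuous⟩

theorem homotopicRel_comp {B V : Set X} (hV : V ⊆ B) (φ : FixHomeo B) {f g : C(X, Y)}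
    (h : f.HomotopicRel g V) :
    (f.comp (homC (φ : X ≃ₜ X))).HomotopicRel (g.comp (homC (φ : X ≃ₜ X))) V := by
  obtain ⟨H⟩ := h
  refine ⟨⟨⟨⟨fun p => H (p.1, (φ : X ≃ₜ X) p.2), by fun_prop⟩, fun x => ?_, fun x => ?_⟩, ?_⟩⟩
  · simp [homC]
  · simp [homC]
  · intro t x hx
    have h1 : (φ : X ≃ₜ X) x = x := φ.2 x (hV hx)
    have h2 := H.prop t x hx
    simp only [homC, ContinuousMap.comp_apply, ContinuousMap.coe_mk, h1] at *
    exact h2

/-- The map `[f] ↦ [f ∘ ρ⁻¹]`. -/
def actFun {B V : Set X} (hV : V ⊆ B) (ρ : FixHomeo B) : MapClass X Y V → MapClass X Y V :=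
  Quotient.map (sa := relSetoid X Y V) (sb := relSetoid X Y V)
    (fun f => f.comp (homC (ρ : X ≃ₜ X).symm)) (fun _ _ h => homotopicRel_comp hV ρ⁻¹ h)

@[simp] theorem actFun_mk {B V : Set X} (hV : V ⊆ B) (ρ : FixHomeo B) (f : C(X, Y)) :
    actFun hV ρ (mapClass V f) = mapClass V (f.comp (homC (ρ : X ≃ₜ X).symm)) := rfl

/-- The action of the homeomorphisms on the homotopy classes of maps: `ρ` acts by
`[f] ↦ [f ∘ ρ⁻¹]`. -/
def permHom (Y : Type) [TopologicalSpace Y] {B V : Set X} (hV : V ⊆ B) :
    FixHomeo B →* Equiv.Perm (MapClass X Y V) where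
  toFun ρ :=
    { toFun := actFun hV ρ
      invFun := actFun hV ρ⁻¹
      left_inv := by
        rintro ⟨f⟩
        change actFun hV ρ⁻¹ (actFun hV ρ (mapClass V f)) = mapClass V f
        rw [actFun_mk, actFun_mk]
        congr 1
        ext x
        change f ((ρ : X ≃ₜ X).symm ((ρ : X ≃ₜ X) x)) = f x
        rw [Homeomorph.symm_apply_apply]
      right_inv := by
        rintro ⟨f⟩
        change actFun hV ρ (actFun hV ρ⁻¹ (mapClass V f)) = mapClass V f
        rw [actFun_mk, actFun_mk]
        congr 1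
        ext x
        change f ((ρ : X ≃ₜ X) ((ρ : X ≃ₜ X).symm x)) = f x
        rw [Homeomorph.apply_symm_apply] }
  map_one' := by
    ext ⟨f⟩
    rfl
  map_mul' := by
    intro ρ σ
    ext ⟨f⟩
    rfl

theorem permHom_isotopic [CompactSpace X] [T2Space X] {B V : Set X} (hV : V ⊆ B) (ρ : FixHomeo B)
    (hρ : ρ ∈ isotopicToId B) : permHom Y hV ρ = 1 := by
  obtain ⟨H, h1, h2, h3⟩ := (isotopicToId B).inv_mem hρ
  ext ⟨f⟩
  change mapClass V (f.comp (homC (ρ : X ≃ₜ X).symm)) = mapClass V f
  rw [mapClass_eq_iff]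
  refine ContinuousMap.HomotopicRel.symm ⟨⟨⟨⟨fun p => f ((H p.1 : X ≃ₜ X) p.2),
    f.continuous.comp h1⟩, fun x => ?_, fun x => ?_⟩, ?_⟩⟩
  · simp only [h2]
    rfl
  · simp only [h3]
    rfl
  · intro t x hx
    simp only [ContinuousMap.coe_mk]
    rw [(H t).2 x (hV hx)]

/-- The action of the mapping class group on the homotopy classes of maps, relative to
`V ⊆ B`: `[ρ]` acts by `[f] ↦ [f ∘ ρ⁻¹]`. -/
def actHom (Y : Type) [TopologicalSpace Y] [CompactSpace X] [T2Space X] {B V : Set X}
    (hV : V ⊆ B) : MCG B →* Equiv.Perm (MapClass X Y V) :=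
  QuotientGroup.lift (isotopicToId B) (permHom Y hV) (permHom_isotopic hV)

/-- The stabiliser `MCG(f)` of the homotopy class of `f` relative to `V` under the action of the
mapping class group. -/
def stabiliser [CompactSpace X] [T2Space X] {B V : Set X} (hV : V ⊆ B) (f : C(X, Y)) :
    Subgroup (MCG B) :=
  (MulAction.stabilizer (Equiv.Perm (MapClass X Y V)) (mapClass V f)).comap (actHom Y hV)

/-- The group `MCG(f)`. -/
def MCGf [CompactSpace X] [T2Space X] {B V : Set X} (hV : V ⊆ B) (f : C(X, Y)) : Type :=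
  stabiliser hV f

instance MCGf.group [CompactSpace X] [T2Space X] {B V : Set X} (hV : V ⊆ B) (f : C(X, Y)) :
    Group (MCGf hV f) := (stabiliser hV f).toGroup

theorem mk_mem_stabiliser [CompactSpace X] [T2Space X] {B V : Set X} (hV : V ⊆ B) (f : C(X, Y))
    (ρ : FixHomeo B) : (QuotientGroup.mk ρ : MCG B) ∈ stabiliser hV f ↔
      (f.comp (homC (ρ : X ≃ₜ X).symm)).HomotopicRel f V := by
  rw [← mapClass_eq_iff]
  rfl

end Maps

/-- The bouquet of `r` circles: `r` copies of the circle with their base points `1` identified. -/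
def Bouquet (r : ℕ) : Type := Quot (fun p q : Fin r × Circle => p.2 = 1 ∧ q.2 = 1)

instance (r : ℕ) : TopologicalSpace (Bouquet r) :=
  inferInstanceAs (TopologicalSpace (Quot _))

/-- Finite cohomological dimension. -/
def FiniteCd (G : Type) [Group G] : Prop :=
  ∃ n : ℕ, ∀ M : Rep.{0} ℤ G, ∀ i : ℕ, n < i → Subsingleton (groupCohomology M i)

/-- The first homology group `H₁(G; ℤ)` is finitely generated. -/
def FiniteH1 (G : Type) [Group G] : Prop :=
  Module.Finite ℤ (groupHomology (Rep.trivial ℤ G ℤ) 1)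

/-- Finite homological type: the virtual cohomological dimension is finite, and for every
`ℤ G`-module `M` which is finitely generated as an abelian group all homology groups `H_i(G; M)`
are finitely generated. -/
def FiniteHomologicalType (G : Type) [Group G] : Prop :=
  (∃ H : Subgroup G, H.FiniteIndex ∧ FiniteCd H) ∧
    ∀ M : Rep.{0} ℤ G, Module.Finite ℤ M → ∀ i : ℕ, Module.Finite ℤ (groupHomology M i)

/-- The surface: the closed disc of radius `9` around `0` minus three open discs, of radius `1`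
around `0` and of radius `1/2` around `4` and around `6`. It is a sphere with four holes. -/
def Sig : Set ℂ := {z | ‖z‖ ≤ 9 ∧ 1 ≤ ‖z‖ ∧ 1 / 2 ≤ ‖z - 4‖ ∧ 1 / 2 ≤ ‖z - 6‖}

/-- The boundary of the surface `Sig`: four circles. -/
def bd : Set Sig :=
  {x | ‖(x : ℂ)‖ = 9 ∨ ‖(x : ℂ)‖ = 1 ∨ ‖(x : ℂ) - 4‖ = 1 / 2 ∨ ‖(x : ℂ) - 6‖ = 1 / 2}

/-- The marked points, one on each boundary circle. -/
def marked : Set Sig := {x | (x : ℂ) = 9 ∨ (x : ℂ) = 1 ∨ (x : ℂ) = 9 / 2 ∨ (x : ℂ) = 13 / 2}

theorem marked_subset : marked ⊆ bd := by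
  rintro x (hx | hx | hx | hx)
  · left; rw [hx]; norm_num
  · right; left; rw [hx]; norm_num
  · right; right; left; rw [hx]; norm_num
  · right; right; right; rw [hx]; norm_num

theorem isClosed_Sig : IsClosed Sig := by
  have h1 : IsClosed {z : ℂ | ‖z‖ ≤ 9} := isClosed_le (by fun_prop) (by fun_prop)
  have h2 : IsClosed {z : ℂ | 1 ≤ ‖z‖} := isClosed_le (by fun_prop) (by fun_prop)
  have h3 : IsClosed {z : ℂ | 1 / 2 ≤ ‖z - 4‖} := isClosed_le (by fun_prop) (by fun_prop)
  have h4 : IsClosed {z : ℂ | 1 / 2 ≤ ‖z - 6‖} := isClosed_le (by fun_prop) (by fun_prop)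
  exact h1.inter (h2.inter (h3.inter h4))

theorem isCompact_Sig : IsCompact Sig :=
  (isCompact_closedBall (0 : ℂ) 9).of_isClosed_subset isClosed_Sig
    fun z hz => by simpa using hz.1

instance : CompactSpace Sig := isCompact_iff_compactSpace.1 isCompact_Sig

end Pool.Agent.V11210.FHT
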