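import Pool.Agent.V11210.FHT.Lift

/-!
The lift of a homeomorphism of the surface, extended to the plane.
-/

set_option autoImplicit false

open Complex Set Filter Topology Function

noncomputable section

namespace Pool.Agent.V11210.FHT

/-- Extension by zero. -/
def ext (δ : Sig → ℂ) (z : ℂ) : ℂ := open Classical in if h : z ∈ Sig then δ ⟨z, h⟩ else 0

theorem ext_of_mem (δ : Sig → ℂ) {z : ℂ} (h : z ∈ Sig) : ext δ z = δ ⟨z, h⟩ := dif_pos h

theorem ext_of_notMem (δ : Sig → ℂ) {z : ℂ} (h : z ∉ Sig) : ext δ z = 0 := dif_neg h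

theorem mem_bd_of_mem_closure {z : ℂ} (h : z ∈ closure Sigᶜ) (hz : z ∈ Sig) :
    (⟨z, hz⟩ : Sig) ∈ bd := by
  by_contra hb
  have hz' := hz
  obtain ⟨h1, h2, h3, h4⟩ := hz'
  simp only [bd, mem_ofPred_eq, not_or] at hb
  obtain ⟨b1, b2, b3, b4⟩ := hb
  let U : Set ℂ := {z : ℂ | ‖z‖ < 9} ∩ ({z : ℂ | 1 < ‖z‖} ∩ ({z : ℂ | 1 / 2 < ‖z - 4‖} ∩
    {z : ℂ | 1 / 2 < ‖z - 6‖}))
  have hU : IsOpen U := by
    have h1 : IsOpen {z : ℂ | ‖z‖ < 9} := isOpen_lt (by fun_prop) (by fun_prop)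
    have h2 : IsOpen {z : ℂ | 1 < ‖z‖} := isOpen_lt (by fun_prop) (by fun_prop)
    have h3 : IsOpen {z : ℂ | 1 / 2 < ‖z - 4‖} := isOpen_lt (by fun_prop) (by fun_prop)
    have h4 : IsOpen {z : ℂ | 1 / 2 < ‖z - 6‖} := isOpen_lt (by fun_prop) (by fun_prop)
    exact h1.inter (h2.inter (h3.inter h4))
  have hzU : z ∈ U := ⟨lt_of_le_of_ne h1 b1, lt_of_le_of_ne h2 (Ne.symm b2),
    lt_of_le_of_ne h3 (Ne.symm b3), lt_of_le_of_ne h4 (Ne.symm b4)⟩
  obtain ⟨y, hyU, hy⟩ := mem_closure_iff.1 h U hU hzU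
  exact hy ⟨hyU.1.le, hyU.2.1.le, hyU.2.2.1.le, hyU.2.2.2.le⟩

theorem continuous_ext {T : Type} [TopologicalSpace T] (δ : T → Sig → ℂ)
    (hδ : Continuous (uncurry δ)) (h0 : ∀ t, ∀ x ∈ bd, δ t x = 0) :
    Continuous (fun p : T × ℂ => ext (δ p.1) p.2) := by
  have h1 : ContinuousOn (fun p : T × ℂ => ext (δ p.1) p.2) (Prod.snd ⁻¹' Sig) := by
    rw [continuousOn_iff_continuous_domRestrict]
    have : (Prod.snd ⁻¹' Sig : Set (T × ℂ)).domRestrict (fun p : T × ℂ => ext (δ p.1) p.2) =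
        fun p => uncurry δ (p.1.1, ⟨p.1.2, p.2⟩) := by
      funext p
      exact ext_of_mem _ p.2
    rw [this]
    exact hδ.comp (by fun_prop)
  have h2 : ContinuousOn (fun p : T × ℂ => ext (δ p.1) p.2) (Prod.snd ⁻¹' (closure Sigᶜ)) := by
    refine (continuousOn_const (c := (0 : ℂ))).congr fun p hp => ?_
    by_cases hm : p.2 ∈ Sig
    · rw [ext_of_mem _ hm]
      exact h0 _ _ (mem_bd_of_mem_closure hp hm)
    · exact ext_of_notMem _ hm
  have h3 := h1.union_of_isClosed h2 (isClosed_Sig.preimage continuous_snd)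
    (isClosed_closure.preimage continuous_snd)
  rw [← preimage_union] at h3
  have h4 : Sig ∪ closure Sigᶜ = univ := by
    refine eq_univ_of_forall fun z => ?_
    by_cases hz : z ∈ Sig
    · exact Or.inl hz
    · exact Or.inr (subset_closure hz)
  rw [h4, preimage_univ] at h3
  exact continuousOn_univ.1 h3

/-- The lift to the plane. -/
def lift (δ : Sig → ℂ) (w : ℂ) : ℂ := w + ext δ (exp w)

theorem lift_of_notMem (δ : Sig → ℂ) {w : ℂ} (h : exp w ∉ Sig) : lift δ w = w := by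
  rw [lift, ext_of_notMem _ h, add_zero]

theorem lift_of_mem (δ : Sig → ℂ) {w : ℂ} (h : exp w ∈ Sig) : lift δ w = w + δ ⟨exp w, h⟩ := by
  rw [lift, ext_of_mem _ h]

theorem IsDisp.exp_lift {φ : Sig → Sig} {δ : Sig → ℂ} (h : IsDisp φ δ) {w : ℂ}
    (hw : exp w ∈ Sig) : exp (lift δ w) = φ ⟨exp w, hw⟩ := by
  rw [lift_of_mem _ hw, exp_add]
  exact h.exp_eq ⟨exp w, hw⟩

theorem IsDisp.inj {φ : Sig → Sig} {δ : Sig → ℂ} (h : IsDisp φ δ) (hφ : Injective φ) :
    Injective (lift δ) := by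
  intro w w' hww
  by_cases hw : exp w ∈ Sig
  · by_cases hw' : exp w' ∈ Sig
    · have h1 := h.exp_lift hw
      have h2 := h.exp_lift hw'
      rw [hww, h2] at h1
      have h3 := hφ (Subtype.ext h1)
      have h4 := congrArg Subtype.val h3
      simp only at h4
      have h5 : lift δ w = lift δ w' := hww
      rw [lift, lift, h4] at h5
      exact add_right_cancel h5
    · exfalso
      have h1 := h.exp_lift hw
      rw [hww, lift_of_notMem _ hw'] at h1
      exact hw' (h1 ▸ (φ _).2)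
  · by_cases hw' : exp w' ∈ Sig
    · exfalso
      have h1 := h.exp_lift hw'
      rw [← hww, lift_of_notMem _ hw] at h1
      exact hw (h1 ▸ (φ _).2)
    · rwa [lift_of_notMem _ hw, lift_of_notMem _ hw'] at hww

/-- A family of displacements yields a good family. -/
theorem goodFam {φ : ℝ → Sig → Sig} {δ : ℝ → Sig → ℂ} (hδ : Continuous (uncurry δ))
    (h : ∀ t, IsDisp (φ t) (δ t)) (hb : ∀ t, ∀ x ∈ bd, φ t x = x) (hi : ∀ t, Injective (φ t))
    (C : ℝ) (hC : ∀ t x, ‖δ t x‖ ≤ C) : GoodFam (fun t => lift (δ t)) := by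
  refine ⟨?_, fun t => (h t).inj (hi t), |C|, fun t z => ?_⟩
  · have h1 := continuous_ext δ hδ (fun t => (h t).zero_bd (hb t))
    have h2 : uncurry (fun t => lift (δ t)) =
        fun p : ℝ × ℂ => p.2 + (fun p : ℝ × ℂ => ext (δ p.1) p.2) (p.1, exp p.2) := by
      funext p
      rfl
    rw [h2]
    exact continuous_snd.add (h1.comp (by fun_prop))
  · rw [lift, add_sub_cancel_left]
    by_cases hz : exp z ∈ Sig
    · rw [ext_of_mem _ hz]
      exact (hC _ _).trans (le_abs_self C)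
    · rw [ext_of_notMem _ hz, norm_zero]
      exact abs_nonneg C

theorem IsDisp.good {φ : Sig → Sig} {δ : Sig → ℂ} (h : IsDisp φ δ) (hb : ∀ x ∈ bd, φ x = x)
    (hi : Injective φ) : Good (lift δ) := by
  obtain ⟨C, hC⟩ := (isCompact_univ (X := Sig)).exists_bound_of_continuousOn h.cont.continuousOn
  have h1 := goodFam (φ := fun _ => φ) (δ := fun _ => δ) (h.cont.comp continuous_snd)
    (fun _ => h) (fun _ => hb) (fun _ => hi) C (fun _ x => hC x (mem_univ x))
  obtain ⟨D, hD⟩ := h1.bdd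
  exact ⟨h1.cont.comp (by fun_prop : Continuous fun z : ℂ => ((0 : ℝ), z)), h1.inj 0, D, hD 0⟩

theorem IsDisp.comp {φ ρ : Sig → Sig} {δ ε : Sig → ℂ} (h : IsDisp φ δ) (h' : IsDisp ρ ε)
    (hc : Continuous ρ) (hb : ∀ x ∈ bd, ρ x = x) : IsDisp (φ ∘ ρ) (fun x => δ (ρ x) + ε x) := by
  refine ⟨(h.cont.comp hc).add h'.cont, fun x => ?_, fun v hv => ?_⟩
  · rw [exp_add, mul_left_comm, h'.exp_eq, mul_comm, h.exp_eq]
    rfl
  · simp only [hb v (marked_subset hv), h.zero v hv, h'.zero v hv, add_zero]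

theorem lift_comp {ρ : Sig → Sig} {δ ε : Sig → ℂ} (h' : IsDisp ρ ε) :
    lift (fun x => δ (ρ x) + ε x) = lift δ ∘ lift ε := by
  funext w
  by_cases hw : exp w ∈ Sig
  · have h1 := h'.exp_lift hw
    have h2 : exp (lift ε w) ∈ Sig := h1 ▸ (ρ _).2
    have h3 : (⟨exp (lift ε w), h2⟩ : Sig) = ρ ⟨exp w, hw⟩ := Subtype.ext h1
    rw [comp_apply, lift_of_mem _ h2, h3, lift_of_mem _ hw, lift_of_mem ε hw]
    ring
  · rw [comp_apply, lift_of_notMem ε hw, lift_of_notMem _ hw, lift_of_notMem _ hw]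

/-- The point over the puncture `4`. -/
def pt : ℂ := (Real.log 4 : ℝ)

/-- The points over the puncture `6`. -/
def qt (k : ℤ) : ℂ := (Real.log 6 : ℝ) + k * (2 * Real.pi * I)

theorem exp_pt : exp pt = 4 := by
  rw [pt, ← ofReal_exp, Real.exp_log (by norm_num)]
  norm_num

theorem exp_qt (k : ℤ) : exp (qt k) = 6 := by
  rw [qt, exp_add, ← ofReal_exp, Real.exp_log (by norm_num), exp_int_mul_two_pi_mul_I]
  norm_num

theorem exp_pt_notMem : exp pt ∉ Sig := by
  rw [exp_pt]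
  intro h
  have := h.2.2.1
  norm_num at this

theorem exp_qt_notMem (k : ℤ) : exp (qt k) ∉ Sig := by
  rw [exp_qt]
  intro h
  have := h.2.2.2
  norm_num at this

theorem pt_ne_qt (k : ℤ) : pt ≠ qt k := by
  intro h
  have h1 := exp_pt
  rw [h, exp_qt] at h1
  norm_num at h1

/-- Additivity of the winding numbers. -/
theorem W_lift_comp {φ ρ : Sig → Sig} {δ ε : Sig → ℂ} (h : IsDisp φ δ) (h' : IsDisp ρ ε)
    (hφ : ∀ x ∈ bd, φ x = x) (hρ : ∀ x ∈ bd, ρ x = x) (iφ : Injective φ) (iρ : Injective ρ)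
    (k : ℤ) :
    W (lift (fun x => δ (ρ x) + ε x)) pt (qt k) = W (lift δ) pt (qt k) + W (lift ε) pt (qt k) := by
  rw [lift_comp h']
  exact W_comp (h.good hφ iφ) (h'.good hρ iρ) (pt_ne_qt k) (lift_of_notMem _ exp_pt_notMem)
    (lift_of_notMem _ (exp_qt_notMem k))

/-- Homeomorphisms which are isotopic to the identity have trivial winding numbers. -/
theorem W_isotopic (φ : FixHomeo bd) (hφ : IsotopicToId bd φ) :
    ∃ δ, IsDisp (φ : Sig ≃ₜ Sig) δ ∧ ∀ k, W (lift δ) pt (qt k) = 0 := by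
  obtain ⟨H, h1, h2, h3⟩ := hφ
  let N : unitInterval × Sig → ℂ := fun p => ((H p.1 : Sig ≃ₜ Sig) p.2 : ℂ) / (p.2 : ℂ)
  have hN : Continuous N :=
    (continuous_subtype_val.comp h1).div (by fun_prop) fun p => Sig_ne_zero _
  obtain ⟨δ, hδ, hδ0, hδe⟩ := exists_log_homotopy N hN
    (fun p => div_ne_zero (Sig_ne_zero _) (Sig_ne_zero _)) (fun x => by
      simp only [N, h2]
      exact div_self (Sig_ne_zero x))
  have hdisp : ∀ t, IsDisp (H t : Sig ≃ₜ Sig) (fun x => δ (t, x)) := by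
    intro t
    refine ⟨hδ.comp (by fun_prop), fun x => ?_, fun v hv => ?_⟩
    · rw [hδe]
      exact mul_div_cancel₀ _ (Sig_ne_zero x)
    · refine congrFun (log_unique (L := fun t => δ (t, v)) (L' := fun _ => 0)
        (hδ.comp (by fun_prop)) continuous_const (fun s => ?_) 0 (hδ0 v)) t
      rw [hδe, exp_zero]
      simp only [N]
      rw [(H s).2 v (marked_subset hv)]
      exact div_self (Sig_ne_zero v)
  obtain ⟨C, hC⟩ := (isCompact_univ (X := unitInterval × Sig)).exists_bound_of_continuousOn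
    hδ.continuousOn
  let P : ℝ → unitInterval := projIcc 0 1 zero_le_one
  have hP : Continuous P := continuous_projIcc
  have hfam : GoodFam (fun t : ℝ => lift (fun x => δ (P t, x))) := by
    refine goodFam (φ := fun t => (H (P t) : Sig ≃ₜ Sig)) (δ := fun t x => δ (P t, x)) ?_
      (fun t => hdisp (P t)) (fun t => (H (P t)).2) (fun t => (H (P t) : Sig ≃ₜ Sig).injective) C
      (fun t x => hC _ (mem_univ _))
    exact hδ.comp (by fun_prop)
  refine ⟨fun x => δ (1, x), h3 ▸ hdisp 1, fun k => ?_⟩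
  have h4 := W_path hfam ?_ (pt_ne_qt k) (fun _ => 0) continuous_const rfl ?_ 1
  · simpa [P] using h4
  · funext w
    have : P 0 = 0 := by simp [P]
    simp only [this]
    by_cases hw : exp w ∈ Sig
    · rw [lift_of_mem _ hw, hδ0, add_zero]
      rfl
    · rw [lift_of_notMem _ hw]
      rfl
  · intro t
    rw [lift_of_notMem _ exp_pt_notMem, lift_of_notMem _ (exp_qt_notMem k)]
    simp

end Pool.Agent.V11210.FHT
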