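import Mathlib

/-!
A group with infinitely many independent homomorphisms has infinitely generated first homology.
-/

set_option autoImplicit false

open scoped TensorProduct

noncomputable section

namespace Pool.Agent.V11210.FHT

/-- The additive map on the abelianisation. -/
def addMap {Γ : Type} [Group Γ] (ψ : Γ →* Multiplicative ℂ) :
    Additive (Abelianization Γ) →+ ℂ where
  toFun a := (Abelianization.lift ψ a.toMul).toAdd
  map_zero' := by simp
  map_add' a b := by simp

theorem addMap_of {Γ : Type} [Group Γ] (ψ : Γ →* Multiplicative ℂ) (g : Γ) :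
    addMap ψ (Additive.ofMul (Abelianization.of g)) = (ψ g).toAdd := by
  simp [addMap]

theorem not_finite_H1 {Γ : Type} [Group Γ] (ψ : ℤ → Γ →* Multiplicative ℂ) (t : ℤ → Γ)
    (h : ∀ k l, (ψ k (t l)).toAdd = if k = l then 1 else 0) :
    ¬ Module.Finite ℤ (groupHomology (Rep.trivial ℤ Γ ℤ) 1) := by
  intro hf
  let e : groupHomology (Rep.trivial ℤ Γ ℤ) 1 ≃+ Additive (Abelianization Γ) ⊗[ℤ] ℤ :=
    groupHomology.H1AddEquivOfIsTrivial (Rep.trivial ℤ Γ ℤ)
  let e' : groupHomology (Rep.trivial ℤ Γ ℤ) 1 ≃ₗ[ℤ] Additive (Abelianization Γ) :=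
    e.toIntLinearEquiv.trans (TensorProduct.rid ℤ _)
  have hA : Module.Finite ℤ (Additive (Abelianization Γ)) := Module.Finite.equiv e'
  have hli : LinearIndependent ℤ
      (fun l : ℤ => (Additive.ofMul (Abelianization.of (t l)) : Additive (Abelianization Γ))) := by
    rw [linearIndependent_iff']
    intro s g hg k hk
    have h1 := congrArg (addMap (ψ k)) hg
    rw [map_sum, map_zero] at h1
    simp only [map_zsmul, addMap_of, h] at h1
    rw [Finset.sum_eq_single k] at h1
    · simpa using h1
    · intro b _ hb
      simp [hb.symm]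
    · intro hk'
      exact absurd hk hk'
  have := hli.finite_of_isNoetherian
  exact not_finite ℤ

end Pool.Agent.V11210.FHT
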