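import Pool.Agent.V11210.FHT.Stab
import Pool.Agent.V11210.FHT.GroupLemma

/-!
The homomorphisms given by the winding numbers.
-/

set_option autoImplicit false

open Complex Set Filter Topology Function

noncomputable section

namespace Pool.Agent.V11210.FHT

variable {r : ℕ} (i : Fin r)

/-- The stabiliser of the map `z ↦ z / |z|`. -/
abbrev St : Subgroup (MCG bd) := stabiliser marked_subset (fmap i)

/-- A representative. -/
def rep (g : St i) : FixHomeo bd := Quotient.out (g : MCG bd)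

theorem mk_rep (g : St i) : (QuotientGroup.mk (rep i g) : MCG bd) = g := Quotient.out_eq _

theorem exists_disp_rep (g : St i) : ∃ δ, IsDisp (rep i g : Sig ≃ₜ Sig) δ :=
  exists_disp i _ ((mk_rep i g).symm ▸ g.2)

/-- The displacement of the representative. -/
def repDisp (g : St i) : Sig → ℂ := (exists_disp_rep i g).choose

theorem repDisp_spec (g : St i) : IsDisp (rep i g : Sig ≃ₜ Sig) (repDisp i g) :=
  (exists_disp_rep i g).choose_spec

/-- The winding number. -/
def wind (k : ℤ) (g : St i) : ℂ := W (lift (repDisp i g)) pt (qt k)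

theorem wind_eq (k : ℤ) (g : St i) (ρ : FixHomeo bd) (hρ : (QuotientGroup.mk ρ : MCG bd) = g)
    {δ : Sig → ℂ} (hδ : IsDisp (ρ : Sig ≃ₜ Sig) δ) : wind i k g = W (lift δ) pt (qt k) := by
  have h1 : (QuotientGroup.mk ρ : MCG bd) = QuotientGroup.mk (rep i g) :=
    hρ.trans (mk_rep i g).symm
  have h2 : ρ⁻¹ * rep i g ∈ isotopicToId bd := QuotientGroup.eq.1 h1
  obtain ⟨ε, hε, hε0⟩ := W_isotopic _ h2
  have h3 := hδ.comp hε ((ρ⁻¹ * rep i g : FixHomeo bd) : Sig ≃ₜ Sig).continuous
    (ρ⁻¹ * rep i g : FixHomeo bd).2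
  have h4 : (rep i g : Sig ≃ₜ Sig) =
      ((ρ : Sig ≃ₜ Sig) : Sig → Sig) ∘ ((ρ⁻¹ * rep i g : FixHomeo bd) : Sig ≃ₜ Sig) := by
    have h5 : rep i g = ρ * (ρ⁻¹ * rep i g) := by group
    conv_lhs => rw [h5]
    rfl
  rw [← h4] at h3
  have h6 := (repDisp_spec i g).unique h3
  rw [wind, h6, W_lift_comp hδ hε ρ.2 (ρ⁻¹ * rep i g : FixHomeo bd).2
    (ρ : Sig ≃ₜ Sig).injective ((ρ⁻¹ * rep i g : FixHomeo bd) : Sig ≃ₜ Sig).injective, hε0, add_zero]

theorem wind_mul (k : ℤ) (g h : St i) : wind i k (g * h) = wind i k g + wind i k h := by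
  have h3 := (repDisp_spec i g).comp (repDisp_spec i h) (rep i h : Sig ≃ₜ Sig).continuous
    (rep i h).2
  rw [wind_eq i k (g * h) (rep i g * rep i h) ?_ h3]
  · exact W_lift_comp (repDisp_spec i g) (repDisp_spec i h) (rep i g).2 (rep i h).2
      (rep i g : Sig ≃ₜ Sig).injective (rep i h : Sig ≃ₜ Sig).injective k
  · rw [QuotientGroup.mk_mul, mk_rep, mk_rep]
    rfl

/-- The homomorphism given by the winding number. -/
def windHom (k : ℤ) : St i →* Multiplicative ℂ :=
  MonoidHom.mk' (fun g => Multiplicative.ofAdd (wind i k g)) fun g h => by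
    rw [wind_mul, ofAdd_add]

end Pool.Agent.V11210.FHT
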