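import Pool.Agent.V11210.FHT.Comp
import Pool.Agent.V11210.FHT.Hom

/-!
The conjugated twists and the final result.
-/

set_option autoImplicit false

open Complex Set Filter Topology Function

noncomputable section

namespace Pool.Agent.V11210.FHT

/-- The lift of the twist around `0`. -/
def Bt (l : ℤ) (w : ℂ) : ℂ := w + (l * alp ‖exp w‖ : ℝ) * I

theorem exp_Bt (l : ℤ) (w : ℂ) : exp (Bt l w) = bH l (exp w) := by
  rw [Bt, exp_add, bH_apply]

theorem norm_exp_Bt (l : ℤ) (w : ℂ) : ‖exp (Bt l w)‖ = ‖exp w‖ := by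
  rw [exp_Bt, norm_bH]

theorem good_Bt (l : ℤ) : Good (Bt l) := by
  refine ⟨?_, fun w w' h => ?_, |(l : ℝ)| * (2 * Real.pi), fun w => ?_⟩
  · have := continuous_alp
    unfold Bt
    fun_prop
  · have h1 : ‖exp w‖ = ‖exp w'‖ := by rw [← norm_exp_Bt l, h, norm_exp_Bt]
    rw [Bt, Bt, h1] at h
    exact add_right_cancel h
  · rw [Bt, add_sub_cancel_left, norm_mul, norm_I, mul_one, norm_real, Real.norm_eq_abs, abs_mul]
    refine mul_le_mul_of_nonneg_left ?_ (abs_nonneg _)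
    have h0 := clamp_nonneg (‖exp w‖ - 9 / 2)
    have h1 := clamp_le_one (‖exp w‖ - 9 / 2)
    have hpi := Real.pi_pos
    rw [alp, abs_of_nonneg (by positivity)]
    nlinarith

theorem Bt_pt (l : ℤ) : Bt l pt = pt := by
  rw [Bt, exp_pt, alp, clamp_of_nonpos (by norm_num)]
  simp

theorem Bt_qt (l k : ℤ) : Bt l (qt k) = qt (k + l) := by
  rw [Bt, exp_qt, alp, clamp_of_one_le (by norm_num), qt, qt]
  push_cast
  ring

/-- The powers of the twist around `0`. -/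
def bG (l : ℤ) : FixHomeo bd := res (bH l) (bH_fix l)

/-- The conjugated twists. -/
def tG (l : ℤ) : FixHomeo bd := bG l * sG * bG (-l)

theorem tG_apply (l : ℤ) (x : Sig) :
    (tG l : Sig ≃ₜ Sig) x = (bG l : Sig ≃ₜ Sig) ((sG : Sig ≃ₜ Sig) ((bG (-l) : Sig ≃ₜ Sig) x)) :=
  rfl

theorem bG_coe (l : ℤ) (x : Sig) : ((bG l : Sig ≃ₜ Sig) x : ℂ) = bH l x := rfl

theorem bG_neg (l : ℤ) (x : Sig) : (bG (-l) : Sig ≃ₜ Sig) ((bG l : Sig ≃ₜ Sig) x) = x := by
  refine Subtype.ext ?_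
  rw [bG_coe, bG_coe, bH_apply, norm_bH, bH_apply, mul_assoc, ← exp_add]
  simp

/-- The displacement of the conjugated twists. -/
def tD (l : ℤ) (x : Sig) : ℂ := sD ((bG (-l) : Sig ≃ₜ Sig) x) +
  (l * (alp ‖((sG : Sig ≃ₜ Sig) ((bG (-l) : Sig ≃ₜ Sig) x) : ℂ)‖ - alp ‖(x : ℂ)‖) : ℝ) * I

theorem tD_disp (l : ℤ) : IsDisp (tG l : Sig ≃ₜ Sig) (tD l) := by
  refine ⟨?_, fun x => ?_, fun v hv => ?_⟩
  · have h1 := continuous_alp
    have h2 : Continuous (bG (-l) : Sig ≃ₜ Sig) := (bG (-l) : Sig ≃ₜ Sig).continuous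
    have h3 : Continuous (sG : Sig ≃ₜ Sig) := (sG : Sig ≃ₜ Sig).continuous
    have h4 := sD_disp.cont
    refine (h4.comp h2).add ?_
    have h5 : Continuous fun x : Sig =>
        ((sG : Sig ≃ₜ Sig) ((bG (-l) : Sig ≃ₜ Sig) x) : ℂ) :=
      continuous_subtype_val.comp (h3.comp h2)
    have h6 : Continuous fun x : Sig =>
        alp ‖((sG : Sig ≃ₜ Sig) ((bG (-l) : Sig ≃ₜ Sig) x) : ℂ)‖ := h1.comp h5.norm
    have h7 : Continuous fun x : Sig => alp ‖(x : ℂ)‖ := h1.comp (by fun_prop)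
    exact (continuous_ofReal.comp (continuous_const.mul (h6.sub h7))).mul continuous_const
  · rw [tG_apply, bG_coe, bH_apply]
    set y := (bG (-l) : Sig ≃ₜ Sig) x with hy
    have h1 := sD_disp.exp_eq y
    have h2 : (y : ℂ) = x * exp (((-l : ℤ) * alp ‖(x : ℂ)‖ : ℝ) * I) := by
      rw [hy, bG_coe, bH_apply]
    have h4 : exp ((l * (alp ‖((sG : Sig ≃ₜ Sig) y : ℂ)‖ - alp ‖(x : ℂ)‖) : ℝ) * I) =
        exp ((l * alp ‖((sG : Sig ≃ₜ Sig) y : ℂ)‖ : ℝ) * I) *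
          exp (((-l : ℤ) * alp ‖(x : ℂ)‖ : ℝ) * I) := by
      rw [← exp_add]
      congr 1
      push_cast
      ring
    calc (x : ℂ) * exp (tD l x) = x * (exp (sD y) *
          (exp ((l * alp ‖((sG : Sig ≃ₜ Sig) y : ℂ)‖ : ℝ) * I) *
            exp (((-l : ℤ) * alp ‖(x : ℂ)‖ : ℝ) * I))) := by rw [tD, ← hy, exp_add, h4]
      _ = (x * exp (((-l : ℤ) * alp ‖(x : ℂ)‖ : ℝ) * I)) * exp (sD y) *
          exp ((l * alp ‖((sG : Sig ≃ₜ Sig) y : ℂ)‖ : ℝ) * I) := by ring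
      _ = _ := by rw [← h2, h1]
  · have h1 : (bG (-l) : Sig ≃ₜ Sig) v = v := (bG (-l)).2 v (marked_subset hv)
    have h2 : (sG : Sig ≃ₜ Sig) v = v := sG.2 v (marked_subset hv)
    rw [tD, h1, h2, sD_disp.zero v hv]
    simp

theorem tD_conj (l : ℤ) : lift (tD l) ∘ Bt l = Bt l ∘ lift sD := by
  funext w
  rw [comp_apply, comp_apply]
  by_cases hw : exp w ∈ Sig
  · have h1 : exp (Bt l w) = ((bG l : Sig ≃ₜ Sig) ⟨exp w, hw⟩ : ℂ) := by
      rw [exp_Bt, bG_coe]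
    have h2 : exp (Bt l w) ∈ Sig := h1 ▸ ((bG l : Sig ≃ₜ Sig) _).2
    have h3 : (⟨exp (Bt l w), h2⟩ : Sig) = (bG l : Sig ≃ₜ Sig) ⟨exp w, hw⟩ := Subtype.ext h1
    have h4 : exp (lift sD w) = ((sG : Sig ≃ₜ Sig) ⟨exp w, hw⟩ : ℂ) := sD_disp.exp_lift hw
    have h5 : ‖((bG l : Sig ≃ₜ Sig) ⟨exp w, hw⟩ : ℂ)‖ = ‖exp w‖ := by
      rw [bG_coe, norm_bH]
    rw [lift_of_mem _ h2, h3, tD, bG_neg, Bt, Bt, h4, h5, lift_of_mem _ hw]
    push_cast
    ring
  · have h1 : exp (Bt l w) = exp w := by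
      rw [exp_Bt, bH_fix l _ (mem_Out_of_notMem hw)]
    rw [lift_of_notMem _ hw, lift_of_notMem _ (h1 ▸ hw)]

theorem W_tD (k l : ℤ) : W (lift (tD l)) pt (qt k) = if k = l then 1 else 0 := by
  have h1 := W_conj (sD_disp.good sG.2 (sG : Sig ≃ₜ Sig).injective)
    ((tD_disp l).good (tG l).2 (tG l : Sig ≃ₜ Sig).injective) (good_Bt l) (tD_conj l)
    (pt_ne_qt (k - l)) (lift_of_notMem _ exp_pt_notMem) (lift_of_notMem _ (exp_qt_notMem _))
  rw [Bt_pt, Bt_qt, sub_add_cancel, lift_sD] at h1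
  rw [h1]
  split_ifs with h
  · rw [h, sub_self, W_zero]
  · exact W_ne (sub_ne_zero.2 h)

variable {r : ℕ} (i : Fin r)

/-- The conjugated twists as elements of the stabiliser. -/
def tS (l : ℤ) : St i := ⟨QuotientGroup.mk (tG l), mem_of_disp i _ (tD_disp l)⟩

theorem windHom_tS (k l : ℤ) : (windHom i k (tS i l)).toAdd = if k = l then 1 else 0 := by
  rw [← W_tD k l]
  exact wind_eq i k (tS i l) (tG l) rfl (tD_disp l)

/-- The first homology group of the stabiliser is not finitely generated. -/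
theorem not_finite_St : ¬ FiniteH1 (St i) :=
  not_finite_H1 (windHom i) (tS i) (windHom_tS i)

theorem not_finiteHomologicalType : ¬ FiniteHomologicalType (St i) := by
  intro h
  exact not_finite_St i (h.2 (Rep.trivial ℤ (St i) ℤ) (inferInstanceAs (Module.Finite ℤ ℤ)) 1)

end Pool.Agent.V11210.FHT
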