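import Pool.Agent.V11210.FHT.Wind
import Pool.Agent.V11210.FHT.Defs

/-!
Lifts of homeomorphisms of the surface to the plane, via the exponential map.
-/

set_option autoImplicit false

open Complex Set Filter Topology Function

noncomputable section

namespace Pool.Agent.V11210.FHT

theorem Sig_ne_zero (x : Sig) : (x : ℂ) ≠ 0 := by
  intro h
  have := x.2.2.1
  rw [h] at this
  norm_num at this

/-- Homotopy lifting for non-vanishing functions. -/
theorem exists_log_homotopy {A : Type} [TopologicalSpace A] (N : unitInterval × A → ℂ)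
    (hN : Continuous N) (h0 : ∀ p, N p ≠ 0) (h1 : ∀ a, N (0, a) = 1) :
    ∃ δ : unitInterval × A → ℂ, Continuous δ ∧ (∀ a, δ (0, a) = 0) ∧ ∀ p, exp (δ p) = N p := by
  let H : C(unitInterval × A, {z : ℂ // z ≠ 0}) := ⟨fun a => ⟨N a, h0 a⟩, by fun_prop⟩
  let f : C(A, ℂ) := ⟨fun _ => 0, continuous_const⟩
  have H0 : ∀ a, H (0, a) = (⟨exp (f a), exp_ne_zero _⟩ : {z : ℂ // z ≠ 0}) := by
    intro a
    refine Subtype.ext ?_
    simp [H, f, h1]
  refine ⟨isCoveringMap_exp.liftHomotopy H f H0, ContinuousMap.continuous _, ?_, ?_⟩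
  · intro a
    exact isCoveringMap_exp.liftHomotopy_zero H f H0 a
  · intro p
    have := congrFun (isCoveringMap_exp.liftHomotopy_lifts H f H0) p
    exact congrArg Subtype.val this

/-- `δ` is a continuous logarithm of `φ(z)/z` which vanishes at the marked points. -/
structure IsDisp (φ : Sig → Sig) (δ : Sig → ℂ) : Prop where
  cont : Continuous δ
  exp_eq : ∀ x : Sig, (x : ℂ) * exp (δ x) = φ x
  zero : ∀ v ∈ marked, δ v = 0

theorem log_zero_on_sphere {c : ℂ} {r : ℝ} (L : Metric.sphere c r → ℂ)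
    (hL : Continuous L) (h : ∀ a, exp (L a) = 1) (a₀ : Metric.sphere c r) (h0 : L a₀ = 0) (a) :
    L a = 0 := by
  have : PreconnectedSpace (Metric.sphere c r) := by
    refine isPreconnected_iff_preconnectedSpace.1 (isPreconnected_sphere ?_ c r)
    rw [Complex.rank_real_complex]
    norm_num
  exact congrFun (log_unique hL (L' := fun _ => 0) continuous_const (fun a => by simp [h a]) a₀ h0) a

theorem sphere_sub0 : Metric.sphere (0 : ℂ) 9 ⊆ Sig := by
  intro z hz
  have h : ‖z‖ = 9 := by simpa using hz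
  have h4 : ‖z‖ ≤ ‖z - 4‖ + 4 := by
    calc ‖z‖ = ‖(z - 4) + 4‖ := by ring_nf
      _ ≤ ‖z - 4‖ + ‖(4 : ℂ)‖ := norm_add_le _ _
      _ = _ := by norm_num
  have h6 : ‖z‖ ≤ ‖z - 6‖ + 6 := by
    calc ‖z‖ = ‖(z - 6) + 6‖ := by ring_nf
      _ ≤ ‖z - 6‖ + ‖(6 : ℂ)‖ := norm_add_le _ _
      _ = _ := by norm_num
  refine ⟨by linarith, by linarith, by linarith, by linarith⟩

theorem norm4 (z : ℂ) : |‖z‖ - 4| ≤ ‖z - 4‖ := by
  have := abs_norm_sub_norm_le z 4
  simpa using this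

theorem norm6 (z : ℂ) : |‖z‖ - 6| ≤ ‖z - 6‖ := by
  have := abs_norm_sub_norm_le z 6
  simpa using this

theorem norm46 (z : ℂ) : 2 ≤ ‖z - 4‖ + ‖z - 6‖ := by
  have h : ‖(z - 4) - (z - 6)‖ ≤ ‖z - 4‖ + ‖z - 6‖ := norm_sub_le _ _
  have h2 : (z - 4) - (z - 6) = 2 := by ring
  rw [h2] at h
  simpa using h

theorem sphere_sub1 : Metric.sphere (0 : ℂ) 1 ⊆ Sig := by
  intro z hz
  have h : ‖z‖ = 1 := by simpa using hz
  have h4 := norm4 z
  have h6 := norm6 z
  rw [h] at h4 h6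
  norm_num at h4 h6
  exact ⟨by linarith, by linarith, by linarith, by linarith⟩

theorem sphere_sub4 : Metric.sphere (4 : ℂ) (1 / 2) ⊆ Sig := by
  intro z hz
  have h : ‖z - 4‖ = 1 / 2 := by simpa [dist_eq_norm] using hz
  have h4 := abs_le.1 (norm4 z)
  have h46 := norm46 z
  rw [h] at h4 h46
  exact ⟨by linarith, by linarith, by linarith, by linarith⟩

theorem sphere_sub6 : Metric.sphere (6 : ℂ) (1 / 2) ⊆ Sig := by
  intro z hz
  have h : ‖z - 6‖ = 1 / 2 := by simpa [dist_eq_norm] using hz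
  have h4 := abs_le.1 (norm6 z)
  have h46 := norm46 z
  rw [h] at h4 h46
  exact ⟨by linarith, by linarith, by linarith, by linarith⟩

/-- A displacement function vanishes on the boundary. -/
theorem IsDisp.zero_bd {φ : Sig → Sig} {δ : Sig → ℂ} (h : IsDisp φ δ) (hφ : ∀ x ∈ bd, φ x = x)
    (x : Sig) (hx : x ∈ bd) : δ x = 0 := by
  have key : ∀ (c : ℂ) (r : ℝ) (hs : Metric.sphere c r ⊆ Sig)
      (hb : ∀ y : Sig, (y : ℂ) ∈ Metric.sphere c r → y ∈ bd) (v : ℂ) (hv : v ∈ Metric.sphere c r)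
      (hm : (⟨v, hs hv⟩ : Sig) ∈ marked), (x : ℂ) ∈ Metric.sphere c r → δ x = 0 := by
    intro c r hs hb v hv hm hx
    have := log_zero_on_sphere (fun a : Metric.sphere c r => δ ⟨a, hs a.2⟩)
      (h.cont.comp (by fun_prop)) (fun a => ?_) ⟨v, hv⟩ (h.zero _ hm) ⟨x, hx⟩
    · exact this
    · have h1 := h.exp_eq ⟨a, hs a.2⟩
      rw [hφ _ (hb _ a.2)] at h1
      have h2 := Sig_ne_zero ⟨a, hs a.2⟩
      exact mul_left_cancel₀ h2 (by rw [h1, mul_one])
  rcases hx with hx | hx | hx | hx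
  · exact key 0 9 sphere_sub0 (fun y hy => Or.inl (by simpa using hy)) 9 (by simp)
      (Or.inl rfl) (by simpa using hx)
  · exact key 0 1 sphere_sub1 (fun y hy => Or.inr (Or.inl (by simpa using hy))) 1 (by simp)
      (Or.inr (Or.inl rfl)) (by simpa using hx)
  · exact key 4 (1 / 2) sphere_sub4
      (fun y hy => Or.inr (Or.inr (Or.inl (by simpa [dist_eq_norm] using hy)))) (9 / 2)
      (by rw [mem_sphere_iff_norm]; norm_num) (Or.inr (Or.inr (Or.inl rfl)))
      (by simpa [dist_eq_norm] using hx)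
  · exact key 6 (1 / 2) sphere_sub6
      (fun y hy => Or.inr (Or.inr (Or.inr (by simpa [dist_eq_norm] using hy)))) (13 / 2)
      (by rw [mem_sphere_iff_norm]; norm_num) (Or.inr (Or.inr (Or.inr rfl)))
      (by simpa [dist_eq_norm] using hx)

/-! ### The surface is connected -/

theorem polar_dist (r s c : ℝ) :
    ‖(r : ℂ) * exp (s * I) - c‖ ^ 2 = r ^ 2 + c ^ 2 - 2 * r * c * Real.cos s := by
  have h : (r : ℂ) * exp (s * I) - c = ((r * Real.cos s - c : ℝ) : ℂ) + ((r * Real.sin s : ℝ) : ℂ) * I := by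
    rw [exp_mul_I, ← ofReal_cos, ← ofReal_sin]
    push_cast
    ring
  rw [h, ← Complex.normSq_eq_norm_sq, normSq_add_mul_I]
  linear_combination r ^ 2 * Real.sin_sq_add_cos_sq s

theorem isPreconnected_Sig : IsPreconnected Sig := by
  refine isPreconnected_of_forall (-1 : ℂ) ?_
  intro z hz
  set r := ‖z‖ with hr
  have hr1 : 1 ≤ r := hz.2.1
  have hr9 : r ≤ 9 := hz.1
  -- the segment of the negative real axis
  let S : Set ℂ := (fun t : ℝ => -(t : ℂ)) '' Icc 1 9
  have hS : S ⊆ Sig := by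
    rintro _ ⟨t, ht, rfl⟩
    have h1 : ‖-(t : ℂ)‖ = t := by
      rw [norm_neg, norm_real, Real.norm_eq_abs, abs_of_pos (by linarith [ht.1])]
    refine ⟨by rw [h1]; exact ht.2, by rw [h1]; exact ht.1, ?_, ?_⟩
    · have h2 : -(t : ℂ) - 4 = -((t + 4 : ℝ) : ℂ) := by push_cast; ring
      rw [h2, norm_neg, norm_real, Real.norm_eq_abs, abs_of_pos (by linarith [ht.1])]
      linarith [ht.1]
    · have h2 : -(t : ℂ) - 6 = -((t + 6 : ℝ) : ℂ) := by push_cast; ring
      rw [h2, norm_neg, norm_real, Real.norm_eq_abs, abs_of_pos (by linarith [ht.1])]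
      linarith [ht.1]
  have hSc : IsPreconnected S :=
    isPreconnected_Icc.image _ (by fun_prop)
  -- the arc from `z` to the negative real axis
  have hz' : z = r * exp ((arg z : ℝ) * I) := (norm_mul_exp_arg_mul_I z).symm
  have harc : ∀ s : ℝ, |arg z| ≤ |s| → |s| ≤ Real.pi → (r : ℂ) * exp (s * I) ∈ Sig := by
    intro s hs hs'
    have hn : ‖(r : ℂ) * exp (s * I)‖ = r := by
      rw [norm_mul, norm_exp_ofReal_mul_I, mul_one, norm_real, Real.norm_eq_abs,
        abs_of_pos (by linarith)]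
    have hcos : Real.cos s ≤ Real.cos (arg z) := by
      rw [← Real.cos_abs s, ← Real.cos_abs (arg z)]
      exact Real.cos_le_cos_of_nonneg_of_le_pi (abs_nonneg _) hs' hs
    have hc : ∀ c : ℝ, 0 ≤ c → 1 / 2 ≤ ‖z - c‖ → 1 / 2 ≤ ‖(r : ℂ) * exp (s * I) - c‖ := by
      intro c hc h
      have h1 := polar_dist r s c
      have h2 := polar_dist r (arg z) c
      rw [← hz'] at h2
      have h3 : (1 / 2 : ℝ) ^ 2 ≤ ‖z - c‖ ^ 2 := by gcongr
      have h4 : 2 * r * c * Real.cos s ≤ 2 * r * c * Real.cos (arg z) := by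
        have : 0 ≤ 2 * r * c := by positivity
        exact mul_le_mul_of_nonneg_left hcos this
      have h5 : (1 / 2 : ℝ) ^ 2 ≤ ‖(r : ℂ) * exp (s * I) - c‖ ^ 2 := by linarith
      exact le_of_sq_le_sq h5 (norm_nonneg _)
    refine ⟨hn.le.trans hr9, hr1.trans hn.ge, ?_, ?_⟩
    · have := hc 4 (by norm_num) (by simpa using hz.2.2.1)
      simpa using this
    · have := hc 6 (by norm_num) (by simpa using hz.2.2.2)
      simpa using this
  obtain ⟨A, hA, hAc, hzA, hrA⟩ : ∃ A : Set ℂ, A ⊆ Sig ∧ IsPreconnected A ∧ z ∈ A ∧ (-(r : ℂ)) ∈ A := by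
    rcases le_total 0 (arg z) with h0 | h0
    · refine ⟨(fun s : ℝ => (r : ℂ) * exp (s * I)) '' Icc (arg z) Real.pi, ?_, ?_, ?_, ?_⟩
      · rintro _ ⟨s, hs, rfl⟩
        have hs0 : 0 ≤ s := h0.trans hs.1
        exact harc s (by rw [abs_of_nonneg h0, abs_of_nonneg hs0]; exact hs.1)
          (by rw [abs_of_nonneg hs0]; exact hs.2)
      · exact isPreconnected_Icc.image _ (by fun_prop)
      · exact ⟨arg z, ⟨le_rfl, arg_le_pi z⟩, hz'.symm⟩
      · exact ⟨Real.pi, ⟨arg_le_pi z, le_rfl⟩, by simp [exp_pi_mul_I]⟩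
    · refine ⟨(fun s : ℝ => (r : ℂ) * exp (s * I)) '' Icc (-Real.pi) (arg z), ?_, ?_, ?_, ?_⟩
      · rintro _ ⟨s, hs, rfl⟩
        have hs0 : s ≤ 0 := hs.2.trans h0
        exact harc s (by rw [abs_of_nonpos h0, abs_of_nonpos hs0]; linarith [hs.2])
          (by rw [abs_of_nonpos hs0]; linarith [hs.1])
      · exact isPreconnected_Icc.image _ (by fun_prop)
      · exact ⟨arg z, ⟨(neg_pi_lt_arg z).le, le_rfl⟩, hz'.symm⟩
      · refine ⟨-Real.pi, ⟨le_rfl, (neg_pi_lt_arg z).le⟩, ?_⟩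
        have : exp (((-Real.pi : ℝ) : ℂ) * I) = -1 := by
          rw [ofReal_neg, neg_mul, exp_neg, exp_pi_mul_I]
          norm_num
        simp only [this]
        ring
  refine ⟨A ∪ S, union_subset hA hS, ?_, Or.inl hzA, ?_⟩
  · exact Or.inr ⟨1, by norm_num, by simp⟩
  · exact hAc.union (-(r : ℂ)) hrA ⟨r, ⟨hr1, hr9⟩, rfl⟩ hSc

instance : PreconnectedSpace Sig := isPreconnected_iff_preconnectedSpace.1 isPreconnected_Sig

theorem marked_one : (⟨1, sphere_sub1 (by simp)⟩ : Sig) ∈ marked := Or.inr (Or.inl rfl)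

theorem IsDisp.unique {φ : Sig → Sig} {δ δ' : Sig → ℂ} (h : IsDisp φ δ) (h' : IsDisp φ δ') :
    δ = δ' := by
  refine log_unique h.cont h'.cont (fun x => ?_) _
    ((h.zero _ marked_one).trans (h'.zero _ marked_one).symm)
  exact mul_left_cancel₀ (Sig_ne_zero x) ((h.exp_eq x).trans (h'.exp_eq x).symm)

end Pool.Agent.V11210.FHT
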