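import Pool.Agent.V11210.FHT.Ext

/-!
The stabiliser of the map `f(z) = z / |z|` to one of the circles of the bouquet.
-/

set_option autoImplicit false

open Complex Set Filter Topology Function

noncomputable section

namespace Pool.Agent.V11210.FHT

/-- The direction of a point of the surface. -/
def dir (x : Sig) : Circle :=
  ⟨(x : ℂ) / ((‖(x : ℂ)‖ : ℝ) : ℂ), mem_sphere_zero_iff_norm.2 (by
    rw [norm_div, norm_real, norm_norm]
    exact div_self (norm_ne_zero_iff.2 (Sig_ne_zero x)))⟩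

theorem dir_coe (x : Sig) : ((dir x : Circle) : ℂ) = (x : ℂ) / ((‖(x : ℂ)‖ : ℝ) : ℂ) := rfl

theorem norm_ne (x : Sig) : ((‖(x : ℂ)‖ : ℝ) : ℂ) ≠ 0 :=
  ofReal_ne_zero.2 (norm_ne_zero_iff.2 (Sig_ne_zero x))

theorem continuous_dir : Continuous dir := by
  refine Continuous.subtype_mk ?_ _
  exact (by fun_prop : Continuous fun x : Sig => (x : ℂ)).div (by fun_prop) norm_ne

theorem dir_marked (v : Sig) (hv : v ∈ marked) : dir v = 1 := by
  refine Circle.ext ?_
  rw [dir_coe, Circle.coe_one]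
  rcases hv with h | h | h | h <;> · rw [h]; norm_num

/-- The inclusion of a circle of the bouquet. -/
def inc {r : ℕ} (i : Fin r) (z : Circle) : Bouquet r := Quot.mk _ (i, z)

theorem continuous_inc {r : ℕ} (i : Fin r) : Continuous (inc i) :=
  continuous_quot_mk.comp (by fun_prop)

/-- The retraction to a circle of the bouquet. -/
def ret {r : ℕ} (i : Fin r) : Bouquet r → Circle :=
  Quot.lift (fun p : Fin r × Circle => if p.1 = i then p.2 else 1) (by
    rintro ⟨a, z⟩ ⟨b, w⟩ ⟨h1, h2⟩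
    simp only at h1 h2
    subst h1
    subst h2
    simp)

theorem continuous_ret {r : ℕ} (i : Fin r) : Continuous (ret i) := by
  refine continuous_quot_lift _ (continuous_prod_of_discrete_left.2 fun a => ?_)
  by_cases h : a = i
  · simp only [h, if_true]
    exact continuous_id
  · simpa [h] using continuous_const

theorem ret_inc {r : ℕ} (i : Fin r) (z : Circle) : ret i (inc i z) = z := if_pos rfl

/-- The map `z ↦ z / |z|` to a circle of the bouquet. -/
def fmap {r : ℕ} (i : Fin r) : C(Sig, Bouquet r) := ⟨fun x => inc i (dir x),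
  (continuous_inc i).comp continuous_dir⟩

theorem exists_disp_symm {r : ℕ} (i : Fin r) (ρ : FixHomeo bd)
    (h : (QuotientGroup.mk ρ : MCG bd) ∈ stabiliser marked_subset (fmap i)) :
    ∃ δ, IsDisp (ρ : Sig ≃ₜ Sig).symm δ := by
  rw [mk_mem_stabiliser] at h
  obtain ⟨K⟩ := h.symm
  let σ : Sig ≃ₜ Sig := (ρ : Sig ≃ₜ Sig).symm
  let K' : unitInterval × Sig → Circle := fun p => ret i (K p)
  have hK' : Continuous K' := (continuous_ret i).comp K.continuous
  have hK0 : ∀ x, K' (0, x) = dir x := by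
    intro x
    simp only [K', K.apply_zero]
    exact ret_inc i _
  have hK1 : ∀ x, K' (1, x) = dir (σ x) := by
    intro x
    simp only [K', K.apply_one]
    exact ret_inc i _
  have hKv : ∀ t, ∀ v ∈ marked, K' (t, v) = 1 := by
    intro t v hv
    have h1 : K (t, v) = fmap i v := K.prop t v hv
    simp only [K', h1]
    exact (ret_inc i _).trans (dir_marked v hv)
  let m : unitInterval × Sig → ℝ := fun p => (1 - (p.1 : ℝ)) + p.1 * (‖(σ p.2 : ℂ)‖ / ‖(p.2 : ℂ)‖)
  have hm : Continuous m := by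
    have h1 : Continuous fun p : unitInterval × Sig => ‖(σ p.2 : ℂ)‖ / ‖(p.2 : ℂ)‖ := by
      have h2 : Continuous fun p : unitInterval × Sig => (σ p.2 : ℂ) :=
        continuous_subtype_val.comp (σ.continuous.comp continuous_snd)
      exact h2.norm.div (by fun_prop) fun p => norm_ne_zero_iff.2 (Sig_ne_zero _)
    exact (by fun_prop : Continuous fun p : unitInterval × Sig => (1 - (p.1 : ℝ))).add
      ((by fun_prop : Continuous fun p : unitInterval × Sig => (p.1 : ℝ)).mul h1)
  have hm0 : ∀ p, m p ≠ 0 := by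
    rintro ⟨t, x⟩
    have h1 : 0 < ‖(σ x : ℂ)‖ / ‖(x : ℂ)‖ :=
      div_pos (norm_pos_iff.2 (Sig_ne_zero _)) (norm_pos_iff.2 (Sig_ne_zero _))
    simp only [m]
    rcases eq_or_lt_of_le t.2.1 with h | h
    · rw [← h]; norm_num
    · have h2 : (t : ℝ) ≤ 1 := t.2.2
      have h3 : 0 < (t : ℝ) * (‖(σ x : ℂ)‖ / ‖(x : ℂ)‖) := mul_pos h h1
      have : 0 < 1 - (t : ℝ) + t * (‖(σ x : ℂ)‖ / ‖(x : ℂ)‖) := by linarith
      exact this.ne'
  let N : unitInterval × Sig → ℂ := fun p => (m p : ℂ) * ((K' p : ℂ) / (dir p.2 : ℂ))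
  have hN : Continuous N := by
    have h1 : Continuous fun p : unitInterval × Sig => (K' p : ℂ) :=
      continuous_subtype_val.comp hK'
    have h2 : Continuous fun p : unitInterval × Sig => (dir p.2 : ℂ) :=
      continuous_subtype_val.comp (continuous_dir.comp continuous_snd)
    exact (continuous_ofReal.comp hm).mul (h1.div h2 fun p => Circle.coe_ne_zero _)
  obtain ⟨δ, hδ, hδ0, hδe⟩ := exists_log_homotopy N hN
    (fun p => mul_ne_zero (ofReal_ne_zero.2 (hm0 p))
      (div_ne_zero (Circle.coe_ne_zero _) (Circle.coe_ne_zero _))) (fun x => by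
      simp only [N, m, hK0]
      rw [div_self (Circle.coe_ne_zero _)]
      simp)
  refine ⟨fun x => δ (1, x), hδ.comp (by fun_prop), fun x => ?_, fun v hv => ?_⟩
  · rw [hδe]
    simp only [N, m, hK1, dir_coe]
    have h1 := norm_ne x
    have h2 := norm_ne (σ x)
    have h3 := Sig_ne_zero x
    push_cast
    field_simp
    simp [σ]
  · refine congrFun (log_unique (L := fun t => δ (t, v)) (L' := fun _ => 0)
      (hδ.comp (by fun_prop)) continuous_const (fun s => ?_) 0 (hδ0 v)) 1
    rw [hδe, exp_zero]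
    have h1 : σ v = v := inv_fix ρ (marked_subset hv)
    simp only [N, m, hKv s v hv, h1, dir_marked v hv]
    rw [div_self (norm_ne_zero_iff.2 (Sig_ne_zero v))]
    simp

theorem exists_disp {r : ℕ} (i : Fin r) (ρ : FixHomeo bd)
    (h : (QuotientGroup.mk ρ : MCG bd) ∈ stabiliser marked_subset (fmap i)) :
    ∃ δ, IsDisp (ρ : Sig ≃ₜ Sig) δ :=
  exists_disp_symm i ρ⁻¹ ((stabiliser marked_subset (fmap i)).inv_mem h)

theorem mem_of_disp {r : ℕ} (i : Fin r) (ρ : FixHomeo bd) {δ : Sig → ℂ}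
    (h : IsDisp (ρ : Sig ≃ₜ Sig) δ) :
    (QuotientGroup.mk ρ : MCG bd) ∈ stabiliser marked_subset (fmap i) := by
  rw [← Subgroup.inv_mem_iff]
  change (QuotientGroup.mk ρ⁻¹ : MCG bd) ∈ _
  rw [mk_mem_stabiliser]
  change ((fmap i).comp (homC (ρ : Sig ≃ₜ Sig))).HomotopicRel (fmap i) marked
  refine ContinuousMap.HomotopicRel.symm ⟨⟨⟨⟨fun p => inc i (dir p.2 * Circle.exp (p.1 * (δ p.2).im)),
    ?_⟩, fun x => ?_, fun x => ?_⟩, ?_⟩⟩
  · refine (continuous_inc i).comp ((continuous_dir.comp continuous_snd).mul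
      (Circle.exp.continuous.comp ?_))
    exact (by fun_prop : Continuous fun p : unitInterval × Sig => (p.1 : ℝ)).mul
      (continuous_im.comp (h.cont.comp continuous_snd))
  · simp [fmap]
  · simp only [Set.Icc.coe_one, one_mul, ContinuousMap.comp_apply, fmap, homC,
      ContinuousMap.coe_mk]
    congr 1
    refine Circle.ext ?_
    have h1 := h.exp_eq x
    rw [Circle.coe_mul, dir_coe, dir_coe, Circle.coe_exp, ← h1, norm_mul, norm_exp]
    have h2 := norm_ne x
    have h3 : exp (δ x) = ((Real.exp (δ x).re : ℝ) : ℂ) * exp ((δ x).im * I) := by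
      rw [ofReal_exp, ← exp_add, re_add_im]
    have h4 : ((Real.exp (δ x).re : ℝ) : ℂ) ≠ 0 := ofReal_ne_zero.2 (Real.exp_ne_zero _)
    rw [h3]
    push_cast at h4 ⊢
    field_simp
  · intro t x hx
    simp only [ContinuousMap.coe_mk, h.zero x hx, zero_im, mul_zero, Circle.exp_zero, mul_one]
    rfl

end Pool.Agent.V11210.FHT
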