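import Pool.Agent.V11210.FHT.Ext

/-!
Twist maps.
-/

set_option autoImplicit false

open Complex Set Filter Topology Function

noncomputable section

namespace Pool.Agent.V11210.FHT

/-- The map which rotates the circle of radius `r` around `c` by the angle `β r`. -/
def tw (c : ℂ) (β : ℝ → ℝ) (z : ℂ) : ℂ := c + (z - c) * exp (β ‖z - c‖ * I)

theorem norm_tw (c : ℂ) (β : ℝ → ℝ) (z : ℂ) : ‖tw c β z - c‖ = ‖z - c‖ := by
  rw [tw, add_sub_cancel_left, norm_mul, norm_exp_ofReal_mul_I, mul_one]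

theorem tw_tw (c : ℂ) (β γ : ℝ → ℝ) (z : ℂ) : tw c β (tw c γ z) = tw c (fun r => γ r + β r) z := by
  have h := norm_tw c γ z
  rw [tw, h]
  simp only [tw]
  rw [add_sub_cancel_left, mul_assoc, ← exp_add]
  push_cast
  ring_nf

theorem tw_zero (c : ℂ) (z : ℂ) : tw c (fun _ => 0) z = z := by
  simp [tw]

theorem tw_neg (c : ℂ) (β : ℝ → ℝ) (z : ℂ) : tw c (fun r => - β r) (tw c β z) = z := by
  rw [tw_tw]
  simp [tw]

theorem tw_neg' (c : ℂ) (β : ℝ → ℝ) (z : ℂ) : tw c β (tw c (fun r => - β r) z) = z := by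
  rw [tw_tw]
  simp [tw]

theorem continuous_tw (c : ℂ) {β : ℝ → ℝ} (hβ : Continuous β) : Continuous (tw c β) := by
  unfold tw
  fun_prop

/-- The twist as a homeomorphism. -/
def twHomeo (c : ℂ) (β : ℝ → ℝ) (hβ : Continuous β) : ℂ ≃ₜ ℂ where
  toFun := tw c β
  invFun := tw c (fun r => - β r)
  left_inv := tw_neg c β
  right_inv := tw_neg' c β
  continuous_toFun := continuous_tw c hβ
  continuous_invFun := continuous_tw c hβ.neg

/-- The complement of the interior of the surface. -/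
def Out : Set ℂ := {z | 9 ≤ ‖z‖ ∨ ‖z‖ ≤ 1 ∨ ‖z - 4‖ ≤ 1 / 2 ∨ ‖z - 6‖ ≤ 1 / 2}

theorem mem_Out_of_notMem {z : ℂ} (h : z ∉ Sig) : z ∈ Out := by
  by_contra h'
  simp only [Out, mem_ofPred_eq, not_or, not_le] at h'
  exact h ⟨h'.1.le, h'.2.1.le, h'.2.2.1.le, h'.2.2.2.le⟩

theorem mem_Out_of_bd {x : Sig} (h : x ∈ bd) : (x : ℂ) ∈ Out := by
  rcases h with h | h | h | h
  · exact Or.inl h.ge
  · exact Or.inr (Or.inl h.le)
  · exact Or.inr (Or.inr (Or.inl h.le))
  · exact Or.inr (Or.inr (Or.inr h.le))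

theorem fix_mem {h : ℂ ≃ₜ ℂ} (hh : ∀ z ∈ Out, h z = z) {z : ℂ} (hz : z ∈ Sig) : h z ∈ Sig := by
  by_contra hn
  have h1 := hh _ (mem_Out_of_notMem hn)
  exact hn ((h.injective h1).symm ▸ hz)

theorem fix_symm {h : ℂ ≃ₜ ℂ} (hh : ∀ z ∈ Out, h z = z) : ∀ z ∈ Out, h.symm z = z := by
  intro z hz
  rw [Homeomorph.symm_apply_eq, hh z hz]

/-- The restriction to the surface. -/
def res (h : ℂ ≃ₜ ℂ) (hh : ∀ z ∈ Out, h z = z) : FixHomeo bd :=
  ⟨{  toFun := fun x => ⟨h x, fix_mem hh x.2⟩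
      invFun := fun x => ⟨h.symm x, fix_mem (fix_symm hh) x.2⟩
      left_inv := fun x => Subtype.ext (h.symm_apply_apply _)
      right_inv := fun x => Subtype.ext (h.apply_symm_apply _)
      continuous_toFun := by fun_prop
      continuous_invFun := by fun_prop },
    fun x hx => Subtype.ext (hh _ (mem_Out_of_bd hx))⟩

theorem res_coe (h : ℂ ≃ₜ ℂ) (hh : ∀ z ∈ Out, h z = z) (x : Sig) :
    ((res h hh : Sig ≃ₜ Sig) x : ℂ) = h x := rfl

/-- A cut-off function. -/
def clamp (x : ℝ) : ℝ := max 0 (min 1 x)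

theorem continuous_clamp : Continuous clamp := by
  unfold clamp
  fun_prop

theorem clamp_of_nonpos {x : ℝ} (h : x ≤ 0) : clamp x = 0 :=
  max_eq_left ((min_le_right _ _).trans h)

theorem clamp_of_one_le {x : ℝ} (h : 1 ≤ x) : clamp x = 1 := by
  rw [clamp, min_eq_left h, max_eq_right zero_le_one]

theorem clamp_nonneg (x : ℝ) : 0 ≤ clamp x := le_max_left _ _

theorem clamp_le_one (x : ℝ) : clamp x ≤ 1 := max_le zero_le_one (min_le_left _ _)

/-- The rotation angle of the twist around `4` and `6`. -/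
def bet (r : ℝ) : ℝ := 2 * Real.pi * clamp (3 - r)

/-- The rotation angle of the twist around `0`. -/
def alp (r : ℝ) : ℝ := 2 * Real.pi * clamp (r - 9 / 2)

theorem continuous_bet : Continuous bet := by
  have := continuous_clamp
  unfold bet
  fun_prop

theorem continuous_alp : Continuous alp := by
  have := continuous_clamp
  unfold alp
  fun_prop

/-- The points of `Out` are either far from `5` or close to `5`. -/
theorem Out_five {z : ℂ} (hz : z ∈ Out) : 3 ≤ ‖z - 5‖ ∨ ‖z - 5‖ ≤ 2 := by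
  rcases hz with h | h | h | h
  · left
    have h1 : ‖z‖ ≤ ‖z - 5‖ + ‖(5 : ℂ)‖ := by
      calc ‖z‖ = ‖(z - 5) + 5‖ := by ring_nf
        _ ≤ _ := norm_add_le _ _
    have h2 : ‖(5 : ℂ)‖ = 5 := by norm_num
    linarith
  · left
    have h1 : ‖(5 : ℂ)‖ ≤ ‖z‖ + ‖z - 5‖ := by
      calc ‖(5 : ℂ)‖ = ‖z - (z - 5)‖ := by ring_nf
        _ ≤ _ := norm_sub_le _ _
    have h2 : ‖(5 : ℂ)‖ = 5 := by norm_num
    linarith
  · right
    have h1 : ‖z - 5‖ ≤ ‖z - 4‖ + ‖(1 : ℂ)‖ := by
      calc ‖z - 5‖ = ‖(z - 4) - 1‖ := by ring_nf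
        _ ≤ _ := norm_sub_le _ _
    rw [norm_one] at h1
    linarith
  · right
    have h1 : ‖z - 5‖ ≤ ‖z - 6‖ + ‖(1 : ℂ)‖ := by
      calc ‖z - 5‖ = ‖(z - 6) + 1‖ := by ring_nf
        _ ≤ _ := norm_add_le _ _
    rw [norm_one] at h1
    linarith

/-- The points of `Out` have norm at most `9 / 2` or at least `11 / 2`. -/
theorem Out_norm {z : ℂ} (hz : z ∈ Out) : ‖z‖ ≤ 9 / 2 ∨ 11 / 2 ≤ ‖z‖ := by
  rcases hz with h | h | h | h
  · right; linarith
  · left; linarith
  · left
    have := abs_le.1 (norm4 z)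
    linarith
  · right
    have := abs_le.1 (norm6 z)
    linarith

/-- The twist around `4` and `6`. -/
def sH : ℂ ≃ₜ ℂ := twHomeo 5 bet continuous_bet

theorem sH_fix : ∀ z ∈ Out, sH z = z := by
  intro z hz
  change tw 5 bet z = z
  rw [tw, bet]
  rcases Out_five hz with h | h
  · rw [clamp_of_nonpos (by linarith)]
    simp
  · rw [clamp_of_one_le (by linarith)]
    simp

/-- The `l`-th power of the twist around `0`. -/
def bH (l : ℤ) : ℂ ≃ₜ ℂ := twHomeo 0 (fun r => l * alp r) (by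
  have := continuous_alp
  fun_prop)

theorem bH_apply (l : ℤ) (z : ℂ) : bH l z = z * exp ((l * alp ‖z‖ : ℝ) * I) := by
  change tw 0 (fun r => (l : ℝ) * alp r) z = _
  simp [tw]

theorem bH_fix (l : ℤ) : ∀ z ∈ Out, bH l z = z := by
  intro z hz
  rw [bH_apply, alp]
  rcases Out_norm hz with h | h
  · rw [clamp_of_nonpos (by linarith)]
    simp
  · rw [clamp_of_one_le (by linarith)]
    have h1 : ((l * (2 * Real.pi * 1) : ℝ) : ℂ) * I = l * (2 * Real.pi * I) := by
      push_cast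
      ring
    rw [h1, exp_int_mul_two_pi_mul_I, mul_one]

theorem norm_bH (l : ℤ) (z : ℂ) : ‖bH l z‖ = ‖z‖ := by
  rw [bH_apply, norm_mul, norm_exp_ofReal_mul_I, mul_one]

/-- The family of rotations around `5`. -/
def sF (t : ℝ) (z : ℂ) : ℂ := tw 5 (fun r => t * bet r) z

theorem sF_zero (z : ℂ) : sF 0 z = z := by simp [sF, tw]

theorem sF_one (z : ℂ) : sF 1 z = sH z := by
  change sF 1 z = tw 5 bet z
  simp [sF]

theorem continuous_sF : Continuous (uncurry sF) := by
  have := continuous_bet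
  have h : uncurry sF = fun p : ℝ × ℂ => 5 + (p.2 - 5) * exp ((p.1 * bet ‖p.2 - 5‖ : ℝ) * I) := rfl
  rw [h]
  fun_prop

theorem sF_inj (t : ℝ) : Injective (sF t) := by
  intro z w h
  have h1 := congrArg (tw 5 (fun r => -(t * bet r))) h
  simp only [sF, tw_neg 5 (fun r => t * bet r)] at h1
  exact h1

/-- The points which are moved are in the right half plane. -/
theorem sF_cases (t : ℝ) (z : ℂ) : sF t z = z ∨ (2 ≤ z.re ∧ ‖z‖ ≤ 8 ∧ 2 ≤ (sF t z).re ∧
    ‖sF t z‖ ≤ 8) := by
  rcases le_total 3 ‖z - 5‖ with h | h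
  · left
    rw [sF, tw, bet, clamp_of_nonpos (by linarith)]
    simp
  · right
    have key : ∀ y : ℂ, ‖y - 5‖ ≤ 3 → 2 ≤ y.re ∧ ‖y‖ ≤ 8 := by
      intro y hy
      constructor
      · have h1 := (abs_le.1 ((abs_re_le_norm (y - 5)).trans hy)).1
        have h2 : (y - 5).re = y.re - 5 := by simp
        linarith
      · have h1 : ‖y‖ ≤ ‖y - 5‖ + ‖(5 : ℂ)‖ := by
          calc ‖y‖ = ‖(y - 5) + 5‖ := by ring_nf
            _ ≤ _ := norm_add_le _ _
        have h2 : ‖(5 : ℂ)‖ = 5 := by norm_num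
        linarith
    have h2 : ‖sF t z - 5‖ ≤ 3 := (norm_tw _ _ _).le.trans h
    exact ⟨(key z h).1, (key z h).2, (key _ h2).1, (key _ h2).2⟩

/-- The ratio is in the slit plane. -/
theorem ratio_slit (t : ℝ) {z : ℂ} (hz : z ≠ 0) : sF t z / z ∈ slitPlane := by
  rcases sF_cases t z with h | ⟨h1, -, h2, -⟩
  · rw [h, div_self hz]
    simp
  · rw [mem_slitPlane_iff]
    by_contra hn
    rw [not_or, not_lt, not_not] at hn
    have h3 : sF t z / z = (((sF t z / z).re : ℝ) : ℂ) := by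
      refine Complex.ext (by simp) (by simp [hn.2])
    have h4 : sF t z = (((sF t z / z).re : ℝ) : ℂ) * z := by
      rw [← h3, div_mul_cancel₀ _ hz]
    have h5 := congrArg Complex.re h4
    rw [re_ofReal_mul] at h5
    have h6 : (sF t z / z).re * z.re ≤ 0 := mul_nonpos_of_nonpos_of_nonneg hn.1 (by linarith)
    linarith

theorem ratio_log (t : ℝ) {z : ℂ} (hz : z ≠ 0) : ‖Complex.log (sF t z / z)‖ ≤ Real.log 4 + Real.pi := by
  have hpi := Real.pi_pos
  have hlog4 : 0 < Real.log 4 := Real.log_pos (by norm_num)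
  rcases sF_cases t z with h | ⟨h1, h2, h3, h4⟩
  · rw [h, div_self hz]
    simp only [log_one, norm_zero]
    positivity
  · have hz' : 2 ≤ ‖z‖ := h1.trans (re_le_norm z)
    have hs' : 2 ≤ ‖sF t z‖ := h3.trans (re_le_norm _)
    refine (norm_le_abs_re_add_abs_im _).trans (add_le_add ?_ ?_)
    · rw [log_re, norm_div, abs_le]
      have hpos : 0 < ‖sF t z‖ / ‖z‖ := by positivity
      constructor
      · rw [← Real.log_inv]
        refine Real.log_le_log (by norm_num) ?_
        rw [le_div_iff₀ (by linarith)]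
        linarith
      · refine Real.log_le_log hpos ?_
        rw [div_le_iff₀ (by linarith)]
        linarith
    · rw [log_im]
      exact abs_arg_le_pi _

/-- The lifts of the rotations. -/
def sL (t : ℝ) (w : ℂ) : ℂ := w + Complex.log (sF t (exp w) / exp w)

theorem sF_ne {z : ℂ} (t : ℝ) (hz : z ≠ 0) : sF t z ≠ 0 := by
  intro h
  have := ratio_slit t hz
  rw [h, zero_div] at this
  simp at this

theorem exp_sL (t : ℝ) (w : ℂ) : exp (sL t w) = sF t (exp w) := by
  rw [sL, exp_add, exp_log (div_ne_zero (sF_ne t (exp_ne_zero w)) (exp_ne_zero w)),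
    mul_div_cancel₀ _ (exp_ne_zero w)]

theorem goodFam_sL : GoodFam sL := by
  refine ⟨?_, fun t w w' h => ?_, Real.log 4 + Real.pi, fun t w => ?_⟩
  · have h1 : Continuous fun p : ℝ × ℂ => sF p.1 (exp p.2) / exp p.2 :=
      (continuous_sF.comp (by fun_prop : Continuous fun p : ℝ × ℂ => (p.1, exp p.2))).div
        (by fun_prop) fun p => exp_ne_zero _
    have h2 : Continuous fun p : ℝ × ℂ => Complex.log (sF p.1 (exp p.2) / exp p.2) :=
      continuous_iff_continuousAt.2 fun p =>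
        h1.continuousAt.clog (ratio_slit p.1 (exp_ne_zero p.2))
    exact continuous_snd.add h2
  · have h1 := congrArg exp h
    rw [exp_sL, exp_sL] at h1
    have h2 := sF_inj t h1
    rw [sL, sL, h2] at h
    exact add_right_cancel h
  · rw [sL, add_sub_cancel_left]
    exact ratio_log t (exp_ne_zero w)

theorem sL_zero : sL 0 = id := by
  funext w
  rw [sL, sF_zero, div_self (exp_ne_zero w), log_one, add_zero]
  rfl

/-- The displacement of the twist. -/
def sD (x : Sig) : ℂ := Complex.log (sF 1 x / x)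

/-- The twist of the surface. -/
def sG : FixHomeo bd := res sH sH_fix

theorem sD_disp : IsDisp (sG : Sig ≃ₜ Sig) sD := by
  refine ⟨?_, fun x => ?_, fun v hv => ?_⟩
  · have h1 : Continuous fun x : Sig => sF 1 x / (x : ℂ) :=
      (continuous_sF.comp (by fun_prop : Continuous fun x : Sig => ((1 : ℝ), (x : ℂ)))).div
        (by fun_prop) Sig_ne_zero
    exact continuous_iff_continuousAt.2 fun x =>
        h1.continuousAt.clog (ratio_slit 1 (Sig_ne_zero x))
  · rw [sD, exp_log (div_ne_zero (sF_ne 1 (Sig_ne_zero x)) (Sig_ne_zero x)),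
      mul_div_cancel₀ _ (Sig_ne_zero x), sF_one]
    rfl
  · rw [sD, sF_one, sH_fix _ (mem_Out_of_bd (marked_subset hv)), div_self (Sig_ne_zero v), log_one]

theorem lift_sD : lift sD = sL 1 := by
  funext w
  by_cases hw : exp w ∈ Sig
  · rw [lift_of_mem _ hw, sL, sD]
  · rw [lift_of_notMem _ hw, sL, sF_one, sH_fix _ (mem_Out_of_notMem hw),
      div_self (exp_ne_zero w), log_one, add_zero]

end Pool.Agent.V11210.FHT
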