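import Mathlib

/-!
Relative winding numbers of injective maps of the plane at bounded distance from the identity.
-/

set_option autoImplicit false

open Complex Set Filter Topology Function

noncomputable section

namespace Pool.Agent.V11210.FHT

/-- Existence of continuous logarithms. -/
theorem exists_log {A : Type} [TopologicalSpace A] [SimplyConnectedSpace A]
    [LocallyPathConnectedSpace A] (Q : A → ℂ) (hQ : Continuous Q) (h0 : ∀ a, Q a ≠ 0) (a₀ : A)
    (e₀ : ℂ) (he : exp e₀ = Q a₀) :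
    ∃ L : A → ℂ, Continuous L ∧ L a₀ = e₀ ∧ ∀ a, exp (L a) = Q a := by
  let f : C(A, {z : ℂ // z ≠ 0}) := ⟨fun a => ⟨Q a, h0 a⟩, by fun_prop⟩
  obtain ⟨F, ⟨h1, h2⟩, -⟩ := isCoveringMap_exp.existsUnique_continuousMap_lifts f a₀ e₀
    (Subtype.ext he)
  refine ⟨F, F.continuous, h1, fun a => ?_⟩
  have := congrFun h2 a
  exact congrArg Subtype.val this

/-- Uniqueness of continuous logarithms. -/
theorem log_unique {A : Type} [TopologicalSpace A] [PreconnectedSpace A] {L L' : A → ℂ}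
    (hL : Continuous L) (hL' : Continuous L') (h : ∀ a, exp (L a) = exp (L' a)) (a₀ : A)
    (h0 : L a₀ = L' a₀) : L = L' := by
  refine isCoveringMap_exp.eq_of_comp_eq hL hL' ?_ a₀ h0
  funext a
  exact Subtype.ext (h a)

/-- The function becomes small when the real part of the last argument tends to infinity. -/
def Small (L : ℝ × ℂ × ℂ → ℂ) : Prop := ∀ ε > 0, ∃ R : ℝ, ∀ a, R ≤ a.2.2.re → ‖L a‖ < ε

/-- `L` is the continuous logarithm of `(F t (x + e ^ w) - F t x) / e ^ w` which is small at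
infinity. -/
structure IsWLog (F : ℝ → ℂ → ℂ) (L : ℝ × ℂ × ℂ → ℂ) : Prop where
  cont : Continuous L
  exp_eq : ∀ t x w, exp w * exp (L (t, x, w)) = F t (x + exp w) - F t x
  small : Small L

theorem IsWLog.unique {F : ℝ → ℂ → ℂ} {L L' : ℝ × ℂ × ℂ → ℂ} (h : IsWLog F L)
    (h' : IsWLog F L') : L = L' := by
  obtain ⟨R, hR⟩ := h.small 1 one_pos
  obtain ⟨R', hR'⟩ := h'.small 1 one_pos
  have hexp : ∀ a, exp (L a) = exp (L' a) := by
    rintro ⟨t, x, w⟩
    have := (h.exp_eq t x w).trans (h'.exp_eq t x w).symm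
    exact mul_left_cancel₀ (exp_ne_zero _) this
  let a₀ : ℝ × ℂ × ℂ := (0, 0, ((max R R' : ℝ) : ℂ))
  refine log_unique h.cont h'.cont hexp a₀ ?_
  have h1 : ‖L a₀‖ < 1 := hR _ (by simp [a₀])
  have h2 : ‖L' a₀‖ < 1 := hR' _ (by simp [a₀])
  obtain ⟨n, hn⟩ := exp_eq_exp_iff_exists_int.1 (hexp a₀)
  have h3 : ‖L a₀ - L' a₀‖ < 2 := by
    calc ‖L a₀ - L' a₀‖ ≤ ‖L a₀‖ + ‖L' a₀‖ := norm_sub_le _ _
      _ < 2 := by linarith
  rw [hn] at h3
  have h4 : ‖L' a₀ + n * (2 * Real.pi * I) - L' a₀‖ = |(n : ℝ)| * (2 * Real.pi) := by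
    rw [add_sub_cancel_left, norm_mul, norm_mul, norm_mul]
    simp [abs_of_pos Real.pi_pos]
  rw [h4] at h3
  have hn0 : n = 0 := by
    by_contra hne
    have : (1 : ℝ) ≤ |(n : ℝ)| := by
      have := Int.one_le_abs hne
      exact_mod_cast this
    have hpi := Real.pi_gt_three
    nlinarith
  rw [hn, hn0]
  simp

/-- A jointly continuous family of injective maps at bounded distance from the identity. -/
structure GoodFam (F : ℝ → ℂ → ℂ) : Prop where
  cont : Continuous (uncurry F)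
  inj : ∀ t, Injective (F t)
  bdd : ∃ C : ℝ, ∀ t z, ‖F t z - z‖ ≤ C

theorem GoodFam.exists_wlog {F : ℝ → ℂ → ℂ} (h : GoodFam F) : ∃ L, IsWLog F L := by
  obtain ⟨C, hC⟩ := h.bdd
  have hC0 : 0 ≤ C := (norm_nonneg _).trans (hC 0 0)
  let Q : ℝ × ℂ × ℂ → ℂ := fun a => (F a.1 (a.2.1 + exp a.2.2) - F a.1 a.2.1) / exp a.2.2
  have hQc : Continuous Q := by
    have h1 : Continuous fun a : ℝ × ℂ × ℂ => F a.1 (a.2.1 + exp a.2.2) :=
      h.cont.comp (f := fun a : ℝ × ℂ × ℂ => (a.1, a.2.1 + exp a.2.2)) (by fun_prop)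
    have h2 : Continuous fun a : ℝ × ℂ × ℂ => F a.1 a.2.1 :=
      h.cont.comp (f := fun a : ℝ × ℂ × ℂ => (a.1, a.2.1)) (by fun_prop)
    exact (h1.sub h2).div (by fun_prop) fun a => exp_ne_zero _
  have hQ0 : ∀ a, Q a ≠ 0 := by
    intro a
    refine div_ne_zero (sub_ne_zero.2 fun he => ?_) (exp_ne_zero _)
    have := h.inj _ he
    simp at this
  have hQ1 : ∀ a, ‖Q a - 1‖ ≤ 2 * C / Real.exp a.2.2.re := by
    intro a
    have he : Q a - 1 = ((F a.1 (a.2.1 + exp a.2.2) - (a.2.1 + exp a.2.2)) -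
        (F a.1 a.2.1 - a.2.1)) / exp a.2.2 := by
      have := exp_ne_zero a.2.2
      simp only [Q]
      field_simp
      ring
    rw [he, norm_div, norm_exp]
    gcongr
    calc _ ≤ ‖F a.1 (a.2.1 + exp a.2.2) - (a.2.1 + exp a.2.2)‖ + ‖F a.1 a.2.1 - a.2.1‖ :=
          norm_sub_le _ _
      _ ≤ C + C := add_le_add (hC _ _) (hC _ _)
      _ = 2 * C := by ring
  have hQ2 : ∀ δ > 0, ∃ R : ℝ, ∀ a : ℝ × ℂ × ℂ, R ≤ a.2.2.re → ‖Q a - 1‖ < δ := by
    intro δ hδ
    refine ⟨Real.log ((2 * C + 1) / δ), fun a ha => (hQ1 a).trans_lt ?_⟩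
    have h1 : (2 * C + 1) / δ ≤ Real.exp a.2.2.re := by
      rw [← Real.log_le_iff_le_exp (by positivity)]
      exact ha
    rw [div_lt_iff₀ (Real.exp_pos _)]
    have h2 : 2 * C + 1 ≤ δ * Real.exp a.2.2.re := by
      rw [div_le_iff₀ hδ] at h1
      linarith
    linarith
  obtain ⟨R0, hR0⟩ := hQ2 1 one_pos
  have hslit : ∀ a : ℝ × ℂ × ℂ, R0 ≤ a.2.2.re → Q a ∈ slitPlane := by
    intro a ha
    have := mem_slitPlane_of_norm_lt_one (hR0 a ha)
    rwa [add_sub_cancel] at this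
  let a₀ : ℝ × ℂ × ℂ := (0, 0, (R0 : ℂ))
  obtain ⟨L, hLc, hL0, hLe⟩ := exists_log Q hQc hQ0 a₀ (Complex.log (Q a₀))
    (Complex.exp_log (hQ0 _))
  let P : ℝ × ℂ × ℂ → ℝ × ℂ × ℂ := fun a => (a.1, a.2.1, (max a.2.2.re R0 : ℝ) + a.2.2.im * I)
  have hPc : Continuous P := by fun_prop
  have hPre : ∀ a, R0 ≤ (P a).2.2.re := by
    intro a
    simp [P]
  have hkey : L ∘ P = (fun a => Complex.log (Q (P a))) := by
    refine log_unique (hLc.comp hPc) ?_ ?_ a₀ ?_
    · exact continuous_iff_continuousAt.2 fun a =>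
        (hQc.comp hPc).continuousAt.clog (hslit _ (hPre a))
    · intro a
      simp only [comp_apply]
      rw [hLe, Complex.exp_log (hQ0 _)]
    · have : P a₀ = a₀ := by
        simp [P, a₀]
      simp only [comp_apply, this, hL0]
  have hbig : ∀ a : ℝ × ℂ × ℂ, R0 ≤ a.2.2.re → L a = Complex.log (Q a) := by
    intro a ha
    have hPa : P a = a := by
      simp only [P, max_eq_left ha]
      ext <;> simp
    have := congrFun hkey a
    simpa only [comp_apply, hPa] using this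
  refine ⟨L, hLc, ?_, ?_⟩
  · intro t x w
    rw [hLe]
    simp only [Q]
    field_simp
  · intro ε hε
    have hcl : Tendsto Complex.log (𝓝 1) (𝓝 0) := by
      have := (continuousAt_clog (x := 1) (by simp)).tendsto
      simpa using this
    rw [Metric.tendsto_nhds_nhds] at hcl
    obtain ⟨δ, hδ, hδε⟩ := hcl ε hε
    obtain ⟨R1, hR1⟩ := hQ2 δ hδ
    refine ⟨max R0 R1, fun a ha => ?_⟩
    rw [hbig a ((le_max_left _ _).trans ha)]
    have := hδε (x := Q a) (by rw [dist_eq_norm]; exact hR1 a ((le_max_right _ _).trans ha))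
    simpa using this

theorem IsWLog.periodic {F : ℝ → ℂ → ℂ} {L : ℝ × ℂ × ℂ → ℂ} (h : IsWLog F L) (t : ℝ) (x w : ℂ) :
    L (t, x, w + 2 * Real.pi * I) = L (t, x, w) := by
  have h' : IsWLog F (fun a => L (a.1, a.2.1, a.2.2 + 2 * Real.pi * I)) := by
    refine ⟨h.cont.comp (by fun_prop), fun t x w => ?_, fun ε hε => ?_⟩
    · have := h.exp_eq t x (w + 2 * Real.pi * I)
      rw [exp_periodic w] at this
      exact this
    · obtain ⟨R, hR⟩ := h.small ε hε
      exact ⟨R, fun a ha => hR _ (by simpa using ha)⟩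
  exact congrFun (h'.unique h) (t, x, w)

theorem IsWLog.periodic_int {F : ℝ → ℂ → ℂ} {L : ℝ × ℂ × ℂ → ℂ} (h : IsWLog F L) (t : ℝ)
    (x w : ℂ) (n : ℤ) : L (t, x, w + n * (2 * Real.pi * I)) = L (t, x, w) := by
  induction n using Int.induction_on with
  | zero => simp
  | succ i ih =>
    refine Eq.trans ?_ ((h.periodic t x (w + (i : ℤ) * (2 * Real.pi * I))).trans ih)
    congr 3
    push_cast
    ring
  | pred i ih =>
    refine Eq.trans (h.periodic t x _).symm (Eq.trans ?_ ih)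
    congr 3
    push_cast
    ring

/-- The value only depends on the exponential of the last argument. -/
theorem IsWLog.congr_exp {F : ℝ → ℂ → ℂ} {L : ℝ × ℂ × ℂ → ℂ} (h : IsWLog F L) (t : ℝ)
    (x w w' : ℂ) (he : exp w = exp w') : L (t, x, w) = L (t, x, w') := by
  obtain ⟨n, hn⟩ := exp_eq_exp_iff_exists_int.1 he
  rw [hn, h.periodic_int]

theorem IsWLog.comp {F G : ℝ → ℂ → ℂ} {L M : ℝ × ℂ × ℂ → ℂ} (hF : IsWLog F L) (hG : IsWLog G M)
    (hGc : Continuous (uncurry G)) :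
    IsWLog (fun t => F t ∘ G t)
      (fun a => L (a.1, G a.1 a.2.1, a.2.2 + M a) + M a) := by
  have hG2 : Continuous fun a : ℝ × ℂ × ℂ => G a.1 a.2.1 :=
    hGc.comp (f := fun a : ℝ × ℂ × ℂ => (a.1, a.2.1)) (by fun_prop)
  refine ⟨?_, fun t x w => ?_, fun ε hε => ?_⟩
  · refine (hF.cont.comp (continuous_fst.prodMk (hG2.prodMk ?_))).add hG.cont
    exact (by fun_prop : Continuous fun a : ℝ × ℂ × ℂ => a.2.2).add hG.cont
  · have h1 := hF.exp_eq t (G t x) (w + M (t, x, w))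
    have h2 := hG.exp_eq t x w
    have h3 : G t x + exp (w + M (t, x, w)) = G t (x + exp w) := by
      rw [exp_add, h2]; ring
    rw [h3] at h1
    simp only [comp_apply]
    rw [← h1, exp_add, exp_add]
    ring
  · obtain ⟨R, hR⟩ := hF.small (ε / 2) (by positivity)
    obtain ⟨R', hR'⟩ := hG.small (min (ε / 2) 1) (by positivity)
    refine ⟨max (R + 1) R', fun a ha => ?_⟩
    have h1 := hR' a ((le_max_right _ _).trans ha)
    have h2 : ‖M a‖ < ε / 2 := h1.trans_le (min_le_left _ _)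
    have h3 : ‖M a‖ < 1 := h1.trans_le (min_le_right _ _)
    have h4 : |(M a).re| < 1 := (abs_re_le_norm _).trans_lt h3
    have h5 : R ≤ (a.2.2 + M a).re := by
      have := (le_max_left _ _).trans ha
      rw [add_re]
      linarith [neg_abs_le (M a).re]
    have h6 := hR (a.1, G a.1 a.2.1, a.2.2 + M a) h5
    calc _ ≤ ‖L (a.1, G a.1 a.2.1, a.2.2 + M a)‖ + ‖M a‖ := norm_add_le _ _
      _ < ε := by linarith

theorem IsWLog.const {F : ℝ → ℂ → ℂ} {L : ℝ × ℂ × ℂ → ℂ} (h : IsWLog F L) (s : ℝ) :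
    IsWLog (fun _ => F s) (fun a => L (s, a.2)) := by
  refine ⟨h.cont.comp (by fun_prop), fun t x w => h.exp_eq s x w, fun ε hε => ?_⟩
  obtain ⟨R, hR⟩ := h.small ε hε
  exact ⟨R, fun a ha => hR _ ha⟩

/-- An injective continuous map of the plane at bounded distance from the identity. -/
structure Good (F : ℂ → ℂ) : Prop where
  cont : Continuous F
  inj : Injective F
  bdd : ∃ C : ℝ, ∀ z, ‖F z - z‖ ≤ C

theorem Good.fam {F : ℂ → ℂ} (h : Good F) : GoodFam (fun _ => F) := by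
  obtain ⟨C, hC⟩ := h.bdd
  exact ⟨h.cont.comp continuous_snd, fun _ => h.inj, C, fun _ => hC⟩

theorem Good.comp {F G : ℂ → ℂ} (hF : Good F) (hG : Good G) : Good (F ∘ G) := by
  obtain ⟨C, hC⟩ := hF.bdd
  obtain ⟨D, hD⟩ := hG.bdd
  refine ⟨hF.cont.comp hG.cont, hF.inj.comp hG.inj, C + D, fun z => ?_⟩
  have : (F ∘ G) z - z = (F (G z) - G z) + (G z - z) := by simp
  rw [this]
  exact (norm_add_le _ _).trans (add_le_add (hC _) (hD _))

/-- The relative winding number of `p` and `q` under `F`. -/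
def W (F : ℂ → ℂ) (p q : ℂ) : ℂ :=
  open Classical in
  if h : ∃ L, IsWLog (fun _ => F) L then h.choose (0, p, Complex.log (q - p)) / (2 * Real.pi * I)
  else 0

theorem IsWLog.W_eq {F : ℂ → ℂ} {L : ℝ × ℂ × ℂ → ℂ} (h : IsWLog (fun _ => F) L) (t : ℝ) {p q w : ℂ}
    (hw : exp w = q - p) : W F p q = L (t, p, w) / (2 * Real.pi * I) := by
  have hex : ∃ L, IsWLog (fun _ => F) L := ⟨L, h⟩
  rw [W, dif_pos hex, hex.choose_spec.unique h]
  have hqp : q - p ≠ 0 := hw ▸ exp_ne_zero w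
  rw [h.congr_exp 0 p (Complex.log (q - p)) w (by rw [exp_log hqp, hw])]
  have := congrFun ((h.const t).unique h) (0, p, w)
  rw [← this]

private theorem two_pi_I_ne : (2 * Real.pi * I : ℂ) ≠ 0 := two_pi_I_ne_zero

theorem W_comp {F G : ℂ → ℂ} (hF : Good F) (hG : Good G) {p q : ℂ} (hpq : p ≠ q) (hp : G p = p)
    (hq : G q = q) : W (F ∘ G) p q = W F p q + W G p q := by
  obtain ⟨L, hL⟩ := hF.fam.exists_wlog
  obtain ⟨M, hM⟩ := hG.fam.exists_wlog
  have hC := hL.comp hM (hG.fam.cont)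
  have hqp : q - p ≠ 0 := sub_ne_zero.2 hpq.symm
  have hw : exp (Complex.log (q - p)) = q - p := exp_log hqp
  set w := Complex.log (q - p)
  rw [hC.W_eq 0 hw, hL.W_eq 0 hw, hM.W_eq 0 hw, ← add_div]
  congr 2
  simp only [hp]
  refine hL.congr_exp 0 p _ _ ?_
  have := hM.exp_eq 0 p w
  rw [hw, hp, add_sub_cancel, hq] at this
  rw [exp_add, hw, this]

theorem W_conj {F F' B : ℂ → ℂ} (hF : Good F) (hF' : Good F') (hB : Good B)
    (hc : F' ∘ B = B ∘ F) {p q : ℂ} (hpq : p ≠ q) (hp : F p = p) (hq : F q = q) :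
    W F' (B p) (B q) = W F p q := by
  obtain ⟨L, hL⟩ := hF.fam.exists_wlog
  obtain ⟨L', hL'⟩ := hF'.fam.exists_wlog
  obtain ⟨M, hM⟩ := hB.fam.exists_wlog
  have h1 := hL'.comp hM hB.fam.cont
  have h2 := hM.comp hL hF.fam.cont
  have hqp : q - p ≠ 0 := sub_ne_zero.2 hpq.symm
  have hw : exp (Complex.log (q - p)) = q - p := exp_log hqp
  set w := Complex.log (q - p)
  have h12 : (fun _ : ℝ => F' ∘ B) = (fun _ : ℝ => B ∘ F) := by rw [hc]
  have h3 := congrFun ((h12 ▸ h1 : IsWLog (fun _ : ℝ => B ∘ F) _).unique h2) (0, p, w)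
  simp only [hp] at h3
  have h4 : exp (L (0, p, w)) = 1 := by
    have := hL.exp_eq 0 p w
    rw [hw, hp, add_sub_cancel, hq] at this
    exact mul_left_cancel₀ hqp (by rw [this, mul_one])
  have h5 : M (0, p, w + L (0, p, w)) = M (0, p, w) :=
    hM.congr_exp 0 p _ _ (by rw [exp_add, h4, mul_one])
  rw [h5] at h3
  have h6 : L' (0, B p, w + M (0, p, w)) = L (0, p, w) := by
    have := h3
    linear_combination this
  have h7 : exp (w + M (0, p, w)) = B q - B p := by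
    have := hM.exp_eq 0 p w
    rw [hw, add_sub_cancel] at this
    rw [exp_add, hw, this]
  rw [hL'.W_eq 0 h7, hL.W_eq 0 hw, h6]

/-- The winding number of the end of a family which starts with the identity. -/
theorem W_path {F : ℝ → ℂ → ℂ} (hF : GoodFam F) (h0 : F 0 = id) {p q : ℂ} (hpq : p ≠ q)
    (ℓ : ℝ → ℂ) (hℓ : Continuous ℓ) (hℓ0 : ℓ 0 = 0)
    (h : ∀ t, exp (ℓ t) * (q - p) = F t q - F t p) (s : ℝ) :
    W (F s) p q = ℓ s / (2 * Real.pi * I) := by
  obtain ⟨L, hL⟩ := hF.exists_wlog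
  have hqp : q - p ≠ 0 := sub_ne_zero.2 hpq.symm
  have hw : exp (Complex.log (q - p)) = q - p := exp_log hqp
  set w := Complex.log (q - p)
  have hid : IsWLog (fun _ => (id : ℂ → ℂ)) (fun _ => 0) :=
    ⟨continuous_const, fun t x w => by simp, fun ε hε => ⟨0, fun _ _ => by simpa using hε⟩⟩
  have h1 : L (0, p, w) = 0 := by
    have h2 := hL.const 0
    rw [h0] at h2
    exact congrFun (h2.unique hid) (0, p, w)
  have h2 : (fun t => L (t, p, w)) = ℓ := by
    refine log_unique (hL.cont.comp (by fun_prop)) hℓ (fun t => ?_) 0 (h1.trans hℓ0.symm)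
    have h3 := hL.exp_eq t p w
    rw [hw, add_sub_cancel] at h3
    refine mul_left_cancel₀ hqp ?_
    rw [h3, ← h t]
    ring
  rw [(hL.const s).W_eq 0 hw]
  simp only
  rw [← h2]

end Pool.Agent.V11210.FHT
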